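import Mathlib

namespace Pool.Agent.H.MP_ad3614_gt
open MeasureTheory Set Module
open scoped InnerProductSpace

section
variable {V : Type*} [NormedAddCommGroup V] [InnerProductSpace ℝ V] [FiniteDimensional ℝ V]
  [MeasurableSpace V] [BorelSpace V]

lemma slice (e : V) (he : ‖e‖ = 1) {S : Set V} (hS : MeasurableSet S) :
    volume S = ∫⁻ y : (ℝ ∙ e)ᗮ, volume {t : ℝ | t • e + (y : V) ∈ S} := by
  have h1 := (ℝ ∙ e).measurePreserving_measurableEquivProd (0 : V)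
  rw [InnerProductSpace.euclideanHausdorffMeasure_eq_volume] at h1
  have h2 := h1.symm
  have h3 : MeasurePreserving (LinearIsometryEquiv.toSpanUnitSingleton e he) volume volume :=
    LinearIsometryEquiv.measurePreserving _
  have h4 := h2.comp (h3.prod (MeasurePreserving.id (volume : Measure (ℝ ∙ e)ᗮ)))
  rw [← h4.measure_preimage hS.nullMeasurableSet, Measure.prod_apply_symm (h4.measurable hS)]
  refine lintegral_congr fun y => ?_
  refine congrArg _ ?_
  ext t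
  simp [Submodule.measurableEquivProd_symm_apply]

lemma gauss {b : ℝ} (hb : 0 < b) :
    ∫⁻ v : V, ENNReal.ofReal (Real.exp (-b * ‖v‖ ^ 2)) =
      ENNReal.ofReal (Real.sqrt (Real.pi / b) ^ finrank ℝ V) := by
  have h := GaussianFourier.integral_rexp_neg_mul_sq_norm (V := V) hb
  have hpos : 0 < Real.pi / b := div_pos Real.pi_pos hb
  have h2 : (Real.pi / b) ^ ((finrank ℝ V : ℝ) / 2) = Real.sqrt (Real.pi / b) ^ finrank ℝ V := by
    rw [Real.sqrt_eq_rpow, ← Real.rpow_natCast, ← Real.rpow_mul hpos.le]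
    refine congrArg _ ?_
    ring
  rw [h2] at h
  have hi : Integrable (fun v : V => Real.exp (-b * ‖v‖ ^ 2)) := by
    refine Integrable.of_integral_ne_zero ?_
    rw [h]
    exact (pow_pos (Real.sqrt_pos.2 hpos) _).ne'
  rw [← h, ofReal_integral_eq_lintegral_ofReal hi
    (Filter.Eventually.of_forall fun v => (Real.exp_pos _).le)]

lemma gauss_shift {b : ℝ} (hb : 0 < b) (z : V) :
    ∫⁻ v : V, ENNReal.ofReal (Real.exp (-b * ‖v + z‖ ^ 2)) =
      ENNReal.ofReal (Real.sqrt (Real.pi / b) ^ finrank ℝ V) := by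
  rw [← gauss hb]
  exact lintegral_add_right_eq_self (fun v : V => ENNReal.ofReal (Real.exp (-b * ‖v‖ ^ 2))) z

lemma ball_vol (c : V) {ρ : ℝ} (hρ : ρ ^ 2 ≤ 16 * (finrank ℝ V : ℝ)) (h0 : 0 ≤ ρ) :
    volume (Metric.closedBall c ρ) ≤ ENNReal.ofReal (24 ^ finrank ℝ V) := by
  rw [Measure.addHaar_closedBall_center]
  have hb : (0 : ℝ) < 1 / 32 := by norm_num
  have h1 : volume (Metric.closedBall (0 : V) ρ) ≤
      ∫⁻ v : V, ENNReal.ofReal (Real.exp (finrank ℝ V / 2)) *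
        ENNReal.ofReal (Real.exp (-(1 / 32) * ‖v‖ ^ 2)) := by
    rw [← lintegral_indicator_one measurableSet_closedBall]
    refine lintegral_mono fun v => ?_
    by_cases hv : v ∈ Metric.closedBall (0 : V) ρ
    · rw [indicator_of_mem hv, ← ENNReal.ofReal_mul (Real.exp_pos _).le, ← Real.exp_add]
      have hv' : ‖v‖ ≤ ρ := by simpa using hv
      have h3 : ‖v‖ ^ 2 ≤ ρ ^ 2 := pow_le_pow_left₀ (norm_nonneg _) hv' 2
      have h4 : (1 : ℝ) ≤ Real.exp (finrank ℝ V / 2 + -(1 / 32) * ‖v‖ ^ 2) :=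
        Real.one_le_exp (by linarith)
      simpa using ENNReal.ofReal_le_ofReal h4
    · rw [indicator_of_notMem hv]
      exact bot_le
  rw [lintegral_const_mul' _ _ ENNReal.ofReal_ne_top, gauss hb,
    ← ENNReal.ofReal_mul (Real.exp_pos _).le] at h1
  refine h1.trans (ENNReal.ofReal_le_ofReal ?_)
  have e1 : Real.exp ((finrank ℝ V : ℝ) / 2) = Real.exp (1 / 2) ^ finrank ℝ V := by
    rw [← Real.exp_nat_mul]
    refine congrArg _ ?_
    ring
  rw [e1, ← mul_pow]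
  refine pow_le_pow_left₀ (by positivity) ?_ _
  have e2 : Real.exp (1 / 2) ≤ 2 := by
    have h5 : Real.exp (1 / 2) * Real.exp (1 / 2) = Real.exp 1 := by
      rw [← Real.exp_add]; norm_num
    have h6 := Real.exp_one_lt_d9
    have h7 := Real.exp_pos (1 / 2)
    nlinarith
  have e3 : Real.sqrt (Real.pi / (1 / 32)) ≤ 12 := by
    rw [Real.sqrt_le_iff]
    have := Real.pi_lt_four
    constructor
    · norm_num
    · rw [div_le_iff₀ hb]; linarith
  have e4 := Real.sqrt_nonneg (Real.pi / (1 / 32))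
  have e5 := Real.exp_pos (1 / 2)
  nlinarith

/-- the basic constant -/
noncomputable def s2 : ℝ := Real.sqrt (Real.pi / (1 / 2))

lemma one_le_s2 : 1 ≤ s2 := by
  unfold s2
  rw [Real.one_le_sqrt]
  have := Real.pi_gt_three
  rw [le_div_iff₀ (by norm_num)]
  linarith

lemma ball_mass (p : V) {R : ℝ} (hR : 4 * ((finrank ℝ V : ℝ) + 1) ≤ R ^ 2) (h0 : 0 ≤ R) :
    ENNReal.ofReal (s2 ^ finrank ℝ V / 2) ≤
      ∫⁻ v in Metric.closedBall p R, ENNReal.ofReal (Real.exp (-(1 / 2) * ‖v - p‖ ^ 2)) := by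
  have hs := one_le_s2
  have htot := gauss_shift (V := V) (b := 1 / 2) (by norm_num) (-p)
  simp only [← sub_eq_add_neg] at htot
  rw [← lintegral_add_compl _ (measurableSet_closedBall (x := p) (ε := R))] at htot
  have hc : ∫⁻ v in (Metric.closedBall p R)ᶜ, ENNReal.ofReal (Real.exp (-(1 / 2) * ‖v - p‖ ^ 2)) ≤
      ENNReal.ofReal (s2 ^ finrank ℝ V / 2) := by
    have h1 : ∫⁻ v in (Metric.closedBall p R)ᶜ,
        ENNReal.ofReal (Real.exp (-(1 / 2) * ‖v - p‖ ^ 2)) ≤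
        ∫⁻ v : V, ENNReal.ofReal (Real.exp (-((finrank ℝ V : ℝ) + 1))) *
          ENNReal.ofReal (Real.exp (-(1 / 4) * ‖v + -p‖ ^ 2)) := by
      refine le_trans ?_ (setLIntegral_le_lintegral (Metric.closedBall p R)ᶜ _)
      refine setLIntegral_mono' measurableSet_closedBall.compl fun v hv => ?_
      rw [← ENNReal.ofReal_mul (Real.exp_pos _).le, ← Real.exp_add, ← sub_eq_add_neg]
      refine ENNReal.ofReal_le_ofReal (Real.exp_le_exp.2 ?_)
      have hv' : R ≤ ‖v - p‖ := by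
        have : ¬ dist v p ≤ R := hv
        rw [dist_eq_norm] at this
        linarith [not_le.1 this]
      have h3 : R ^ 2 ≤ ‖v - p‖ ^ 2 := pow_le_pow_left₀ h0 hv' 2
      linarith
    rw [lintegral_const_mul' _ _ ENNReal.ofReal_ne_top, gauss_shift (by norm_num),
      ← ENNReal.ofReal_mul (Real.exp_pos _).le] at h1
    refine h1.trans (ENNReal.ofReal_le_ofReal ?_)
    have e1 : Real.exp (-((finrank ℝ V : ℝ) + 1)) =
        Real.exp (-1) ^ finrank ℝ V * Real.exp (-1) := by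
      rw [← Real.exp_nat_mul, ← Real.exp_add]
      refine congrArg _ ?_
      ring
    have e2 : Real.exp (-1) ≤ 1 / 2 := by
      have := Real.exp_neg_one_lt_d9
      linarith
    have e3 : Real.sqrt (Real.pi / (1 / 4)) ≤ 2 * s2 := by
      rw [Real.sqrt_le_iff]
      refine ⟨by linarith, ?_⟩
      have : s2 ^ 2 = Real.pi / (1 / 2) := Real.sq_sqrt (by have := Real.pi_pos; positivity)
      have hp := Real.pi_pos
      rw [mul_pow, this]
      field_simp
      linarith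
    have e4 : Real.exp (-1) ^ finrank ℝ V * Real.sqrt (Real.pi / (1 / 4)) ^ finrank ℝ V ≤
        s2 ^ finrank ℝ V := by
      rw [← mul_pow]
      refine pow_le_pow_left₀ (by positivity) ?_ _
      have e5 := Real.sqrt_nonneg (Real.pi / (1 / 4))
      have e6 := Real.exp_pos (-1)
      nlinarith
    have e7 : 0 ≤ Real.exp (-1) ^ finrank ℝ V * Real.sqrt (Real.pi / (1 / 4)) ^ finrank ℝ V := by
      positivity
    rw [e1]
    have e6 := Real.exp_pos (-1)
    nlinarith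
  have hsplit : ENNReal.ofReal (s2 ^ finrank ℝ V) =
      ENNReal.ofReal (s2 ^ finrank ℝ V / 2) + ENNReal.ofReal (s2 ^ finrank ℝ V / 2) := by
    rw [← ENNReal.ofReal_add (by positivity) (by positivity)]
    refine congrArg _ ?_
    ring
  have h9 : ENNReal.ofReal (s2 ^ finrank ℝ V / 2) + ENNReal.ofReal (s2 ^ finrank ℝ V / 2) ≤
      (∫⁻ v in Metric.closedBall p R, ENNReal.ofReal (Real.exp (-(1 / 2) * ‖v - p‖ ^ 2))) +
        ENNReal.ofReal (s2 ^ finrank ℝ V / 2) := by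
    rw [← hsplit]
    unfold s2
    rw [← htot]
    exact add_le_add le_rfl hc
  exact (ENNReal.add_le_add_iff_right ENNReal.ofReal_ne_top).1 h9

lemma hyper {U : Type*} [NormedAddCommGroup U] [InnerProductSpace ℝ U] [FiniteDimensional ℝ U]
    (ι : V →ₗᵢ[ℝ] U) (ν : U) (hν : ‖ν‖ = 1) (ho : ∀ y, ⟪ι y, ν⟫_ℝ = 0) (z : U) :
    ∫⁻ y : V, ENNReal.ofReal (Real.exp (-(1 / 2) * ‖ι y + z‖ ^ 2)) ≤
      ENNReal.ofReal (s2 ^ finrank ℝ V * Real.exp (-(1 / 2) * ⟪z, ν⟫_ℝ ^ 2)) := by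
  obtain ⟨z', hz'⟩ : ∃ z' : V, ∀ y, ⟪ι y, z⟫_ℝ = ⟪y, z'⟫_ℝ :=
    ⟨LinearMap.adjoint ι.toLinearMap z, fun y => by
      rw [LinearMap.adjoint_inner_right]; rfl⟩
  have key : ∀ y : V, ‖y + z'‖ ^ 2 + ⟪z, ν⟫_ℝ ^ 2 ≤ ‖ι y + z‖ ^ 2 := by
    intro y
    have h1 : ‖ι y + z‖ ^ 2 = ‖y‖ ^ 2 + 2 * ⟪y, z'⟫_ℝ + ‖z‖ ^ 2 := by
      rw [norm_add_sq_real, hz', ι.norm_map]
    have h2 : ‖y + z'‖ ^ 2 = ‖y‖ ^ 2 + 2 * ⟪y, z'⟫_ℝ + ‖z'‖ ^ 2 := norm_add_sq_real _ _
    have h3 : 0 ≤ ‖z - (ι z' + ⟪z, ν⟫_ℝ • ν)‖ ^ 2 := sq_nonneg _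
    rw [norm_sub_sq_real, norm_add_sq_real, inner_add_right, real_inner_smul_right,
      real_inner_smul_right, ho, norm_smul, hν, ι.norm_map, real_inner_comm, hz',
      real_inner_self_eq_norm_sq, Real.norm_eq_abs, mul_one, sq_abs] at h3
    nlinarith
  have h1 : ∫⁻ y : V, ENNReal.ofReal (Real.exp (-(1 / 2) * ‖ι y + z‖ ^ 2)) ≤
      ∫⁻ y : V, ENNReal.ofReal (Real.exp (-(1 / 2) * ⟪z, ν⟫_ℝ ^ 2)) *
        ENNReal.ofReal (Real.exp (-(1 / 2) * ‖y + z'‖ ^ 2)) := by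
    refine lintegral_mono fun y => ?_
    rw [← ENNReal.ofReal_mul (Real.exp_pos _).le, ← Real.exp_add]
    refine ENNReal.ofReal_le_ofReal (Real.exp_le_exp.2 ?_)
    have := key y
    linarith
  rw [lintegral_const_mul' _ _ ENNReal.ofReal_ne_top, gauss_shift (by norm_num),
    ← ENNReal.ofReal_mul (Real.exp_pos _).le] at h1
  rw [mul_comm]
  exact h1

end

end Pool.Agent.H.MP_ad3614_gt
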