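import Pool.Agent.H.MP_ad3614_gt.Conf

namespace Pool.Agent.H.MP_ad3614_gt
open MeasureTheory Set Module Finset
open scoped InnerProductSpace Pointwise

section
variable {V : Type*} [NormedAddCommGroup V] [InnerProductSpace ℝ V]

/-- Gaussian mixture -/
noncomputable def hh {I : Type} [Fintype I] (p : I → V) (y : V) : ℝ :=
  (1 / Fintype.card I) * ∑ i, Real.exp (-(1 / 2) * ‖y - p i‖ ^ 2)

lemma hh_nonneg {I : Type} [Fintype I] (p : I → V) (y : V) : 0 ≤ hh p y := by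
  unfold hh
  positivity

lemma hh_le_one {I : Type} [Fintype I] [Nonempty I] (p : I → V) (y : V) : hh p y ≤ 1 := by
  unfold hh
  have hc : (0 : ℝ) < Fintype.card I := by exact_mod_cast Fintype.card_pos
  have h1 : ∑ i, Real.exp (-(1 / 2) * ‖y - p i‖ ^ 2) ≤ ∑ _i : I, (1 : ℝ) :=
    sum_le_sum fun i _ => Real.exp_le_one_iff.2 (by nlinarith [sq_nonneg ‖y - p i‖])
  simp only [sum_const, card_univ, nsmul_eq_mul, mul_one] at h1
  rw [one_div, inv_mul_le_iff₀ hc]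
  linarith

lemma hh_cont {I : Type} [Fintype I] (p : I → V) : Continuous (hh p) := by
  unfold hh
  fun_prop

lemma conv_sq : ConvexOn ℝ univ (fun y : V => ‖y‖ ^ 2) :=
  (convexOn_univ_norm (E := V)).pow (fun x _ => norm_nonneg x) 2

lemma conv_one (p : V) :
    ConvexOn ℝ univ (fun y : V => ‖y‖ ^ 2 + Real.exp (-(1 / 2) * ‖y - p‖ ^ 2)) := by
  have h1 : ConvexOn ℝ univ (fun y : V => (1 / 2 : ℝ) * ‖y - p‖ ^ 2) := by
    have := (conv_sq (V := V)).translate_left (-p)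
    simpa [Function.comp_def, sub_eq_add_neg] using this.smul (c := (1 / 2 : ℝ)) (by norm_num)
  have h2 : ConvexOn ℝ (Ici (0 : ℝ)) (fun s : ℝ => s + Real.exp (-s)) := by
    refine (convexOn_id (convex_Ici 0)).add ?_
    refine ⟨convex_Ici 0, fun x _ y _ a b ha hb hab => ?_⟩
    have := convexOn_exp.2 (mem_univ (-x)) (mem_univ (-y)) ha hb hab
    simp only [smul_eq_mul] at this ⊢
    have e : -(a * x + b * y) = a * -x + b * -y := by ring
    rw [e]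
    exact this
  have h3 : MonotoneOn (fun s : ℝ => s + Real.exp (-s)) (Ici 0) := by
    intro x hx y hy hxy
    have hx' : (0 : ℝ) ≤ x := hx
    show x + Real.exp (-x) ≤ y + Real.exp (-y)
    have e : Real.exp (-y) = Real.exp (-x) * Real.exp (x - y) := by
      rw [← Real.exp_add]; refine congrArg _ ?_; ring
    have h4 := Real.add_one_le_exp (x - y)
    have h5 : Real.exp (-x) ≤ 1 := Real.exp_le_one_iff.2 (by linarith)
    have h6 := Real.exp_pos (-x)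
    rw [e]
    nlinarith
  have h4 : ConvexOn ℝ univ
      (fun y : V => (1 / 2 : ℝ) * ‖y - p‖ ^ 2 + Real.exp (-((1 / 2 : ℝ) * ‖y - p‖ ^ 2))) := by
    refine ⟨convex_univ, fun x _ y _ a b ha hb hab => ?_⟩
    have h5 := h1.2 (mem_univ x) (mem_univ y) ha hb hab
    have hx : (1 / 2 : ℝ) * ‖x - p‖ ^ 2 ∈ Ici (0 : ℝ) := by
      show (0 : ℝ) ≤ _
      positivity
    have hy : (1 / 2 : ℝ) * ‖y - p‖ ^ 2 ∈ Ici (0 : ℝ) := by
      show (0 : ℝ) ≤ _
      positivity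
    have hz : (1 / 2 : ℝ) * ‖a • x + b • y - p‖ ^ 2 ∈ Ici (0 : ℝ) := by
      show (0 : ℝ) ≤ _
      positivity
    exact (h3 hz (convex_Ici 0 hx hy ha hb hab) h5).trans (h2.2 hx hy ha hb hab)
  have h5 : ConvexOn ℝ univ (fun y : V => ⟪y, p⟫_ℝ - (1 / 2) * ‖p‖ ^ 2) := by
    refine ⟨convex_univ, fun x _ y _ a b ha hb hab => le_of_eq ?_⟩
    simp only [inner_add_left, real_inner_smul_left, smul_eq_mul]
    have : b = 1 - a := by linarith
    rw [this]; ring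
  have h6 := (((conv_sq (V := V)).smul (c := (1 / 2 : ℝ)) (by norm_num)).add h5).add h4
  refine h6.congr fun y _ => ?_
  simp only [Pi.add_apply, smul_eq_mul, neg_mul]
  rw [norm_sub_sq_real]
  ring

lemma conv_hh {I : Type} [Fintype I] [Nonempty I] (p : I → V) :
    ConvexOn ℝ univ (fun y : V => ‖y‖ ^ 2 + hh p y) := by
  have hc : (0 : ℝ) < Fintype.card I := by exact_mod_cast Fintype.card_pos
  have e : ∀ y : V, ‖y‖ ^ 2 + hh p y = (1 / Fintype.card I) *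
      ∑ i, (‖y‖ ^ 2 + Real.exp (-(1 / 2) * ‖y - p i‖ ^ 2)) := by
    intro y
    rw [sum_add_distrib, mul_add, hh]
    simp only [sum_const, card_univ, nsmul_eq_mul]
    field_simp
  refine ⟨convex_univ, fun x _ y _ a b ha hb hab => ?_⟩
  simp only [e, smul_eq_mul]
  have h1 := sum_le_sum fun i (_ : i ∈ (univ : Finset I)) =>
    (conv_one (p i)).2 (mem_univ x) (mem_univ y) ha hb hab
  simp only [smul_eq_mul] at h1
  rw [sum_add_distrib (f := fun i => a * (‖x‖ ^ 2 + Real.exp (-(1 / 2) * ‖x - p i‖ ^ 2))),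
    ← mul_sum, ← mul_sum] at h1
  have h2 := mul_le_mul_of_nonneg_left h1 (show (0 : ℝ) ≤ 1 / Fintype.card I by positivity)
  linarith

end

section
variable {E : Type*} [NormedAddCommGroup E] [InnerProductSpace ℝ E] [FiniteDimensional ℝ E]

/-- projection along e -/
noncomputable def pr (e : E) : E →L[ℝ] (ℝ ∙ e)ᗮ := (ℝ ∙ e)ᗮ.orthogonalProjectionOnto

lemma pr_coe {e : E} (he : ‖e‖ = 1) (x : E) : (pr e x : E) = x - ⟪e, x⟫_ℝ • e := by
  unfold pr
  rw [Submodule.coe_orthogonalProjectionOnto_apply, Submodule.starProjection_orthogonal_val,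
    Submodule.starProjection_unit_singleton ℝ he]

lemma inner_coe (e : E) (y : (ℝ ∙ e)ᗮ) : ⟪e, (y : E)⟫_ℝ = 0 :=
  Submodule.mem_orthogonal_singleton_iff_inner_right.1 y.2

lemma inner_line {e : E} (he : ‖e‖ = 1) (t : ℝ) (y : (ℝ ∙ e)ᗮ) : ⟪e, t • e + (y : E)⟫_ℝ = t := by
  rw [inner_add_right, inner_coe, real_inner_smul_right, real_inner_self_eq_norm_sq, he]
  ring

lemma pr_line {e : E} (he : ‖e‖ = 1) (t : ℝ) (y : (ℝ ∙ e)ᗮ) : pr e (t • e + (y : E)) = y := by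
  apply Subtype.ext
  rw [pr_coe he, inner_line he]
  abel

lemma norm_pr_le (e x : E) : ‖pr e x‖ ≤ ‖x‖ :=
  Submodule.norm_orthogonalProjectionOnto_apply_le _ x

lemma norm_le_pr {e : E} (he : ‖e‖ = 1) (x : E) : ‖x‖ ≤ |⟪e, x⟫_ℝ| + ‖pr e x‖ := by
  have h1 : x = ⟪e, x⟫_ℝ • e + (pr e x : E) := by rw [pr_coe he]; abel
  have h2 := norm_add_le (⟪e, x⟫_ℝ • e) (pr e x : E)
  rw [← h1, norm_smul, he, mul_one, Real.norm_eq_abs] at h2
  exact h2

/-- a body over a base -/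
def body (e : E) (K0 : Set (ℝ ∙ e)ᗮ) (A : ℝ) (g : (ℝ ∙ e)ᗮ → ℝ) : Set E :=
  {x | pr e x ∈ K0 ∧ ⟪e, x⟫_ℝ + g (pr e x) ≤ A ∧ -⟪e, x⟫_ℝ + g (-pr e x) ≤ A}

lemma body_closed (e : E) {K0 : Set (ℝ ∙ e)ᗮ} (hK : IsClosed K0) (A : ℝ) {g : (ℝ ∙ e)ᗮ → ℝ}
    (hg : Continuous g) : IsClosed (body e K0 A g) := by
  have h1 : IsClosed {x : E | ⟪e, x⟫_ℝ + g (pr e x) ≤ A} :=
    isClosed_le (by fun_prop) continuous_const
  have h2 : IsClosed {x : E | -⟪e, x⟫_ℝ + g (-pr e x) ≤ A} :=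
    isClosed_le (by fun_prop) continuous_const
  exact (hK.preimage (pr e).continuous).inter (h1.inter h2)

lemma body_compact {e : E} (he : ‖e‖ = 1) {K0 : Set (ℝ ∙ e)ᗮ} (hK : IsCompact K0) (A : ℝ)
    {g : (ℝ ∙ e)ᗮ → ℝ} (hg : Continuous g) (h0 : ∀ y, 0 ≤ g y) : IsCompact (body e K0 A g) := by
  obtain ⟨B, hB⟩ := hK.isBounded.exists_norm_le
  refine Metric.isCompact_of_isClosed_isBounded (body_closed e hK.isClosed A hg) ?_
  refine (Metric.isBounded_closedBall (x := (0 : E)) (r := A + B)).subset ?_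
  rintro x ⟨h1, h2, h3⟩
  have h4 := norm_le_pr he x
  have h5 := hB _ h1
  have h6 : |⟪e, x⟫_ℝ| ≤ A := abs_le.2 ⟨by linarith [h0 (-pr e x)], by linarith [h0 (pr e x)]⟩
  simp only [Metric.mem_closedBall, dist_zero_right]
  linarith

lemma body_convex (e : E) {K0 : Set (ℝ ∙ e)ᗮ} (hK : Convex ℝ K0) (A : ℝ)
    {g : (ℝ ∙ e)ᗮ → ℝ} (hg : ConvexOn ℝ univ g) : Convex ℝ (body e K0 A g) := by
  rintro x ⟨h1, h2, h3⟩ y ⟨h4, h5, h6⟩ a b ha hb hab
  have e1 : pr e (a • x + b • y) = a • pr e x + b • pr e y := by simp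
  have e2 : ⟪e, a • x + b • y⟫_ℝ = a * ⟪e, x⟫_ℝ + b * ⟪e, y⟫_ℝ := by
    rw [inner_add_right, real_inner_smul_right, real_inner_smul_right]
  have e3 : -(a • pr e x + b • pr e y) = a • -pr e x + b • -pr e y := by
    rw [smul_neg, smul_neg]; abel
  have h7 := hg.2 (mem_univ (pr e x)) (mem_univ (pr e y)) ha hb hab
  have h8 := hg.2 (mem_univ (-pr e x)) (mem_univ (-pr e y)) ha hb hab
  simp only [smul_eq_mul] at h7 h8
  have hA : a * A + b * A = A := by rw [← add_mul, hab, one_mul]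
  refine ⟨by rw [e1]; exact hK h1 h4 ha hb hab, ?_, ?_⟩
  · rw [e1, e2]
    linarith [mul_le_mul_of_nonneg_left h2 ha, mul_le_mul_of_nonneg_left h5 hb]
  · rw [e1, e2, e3]
    linarith [mul_le_mul_of_nonneg_left h3 ha, mul_le_mul_of_nonneg_left h6 hb]

lemma body_neg (e : E) {K0 : Set (ℝ ∙ e)ᗮ} (hK : ∀ y ∈ K0, -y ∈ K0) (A : ℝ)
    (g : (ℝ ∙ e)ᗮ → ℝ) : ∀ x ∈ body e K0 A g, -x ∈ body e K0 A g := by
  rintro x ⟨h1, h2, h3⟩
  refine ⟨by rw [map_neg]; exact hK _ h1, ?_, ?_⟩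
  · rw [map_neg, inner_neg_right]; exact h3
  · rw [map_neg, inner_neg_right, neg_neg, neg_neg]; exact h2

lemma body_symm (e : E) {K0 : Set (ℝ ∙ e)ᗮ} (hK : ∀ y ∈ K0, -y ∈ K0) (A : ℝ)
    (g : (ℝ ∙ e)ᗮ → ℝ) : body e K0 A g = -body e K0 A g := by
  ext x
  rw [Set.mem_neg]
  exact ⟨body_neg e hK A g x, fun h => by simpa using body_neg e hK A g _ h⟩

lemma body_int (e : E) {K0 : Set (ℝ ∙ e)ᗮ} (hK : Metric.closedBall 0 1 ⊆ K0) {A : ℝ}
    {g : (ℝ ∙ e)ᗮ → ℝ} (hg : Continuous g) (h0 : g 0 < A) :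
    (interior (body e K0 A g)).Nonempty := by
  refine ⟨0, mem_interior.2 ⟨{x | ‖x‖ < 1 ∧ ⟪e, x⟫_ℝ + g (pr e x) < A ∧
    -⟪e, x⟫_ℝ + g (-pr e x) < A}, ?_, ?_, ?_⟩⟩
  · rintro x ⟨h1, h2, h3⟩
    refine ⟨hK ?_, h2.le, h3.le⟩
    have := norm_pr_le e x
    simp only [Metric.mem_closedBall, dist_zero_right]
    linarith
  · have h1 : IsOpen {x : E | ⟪e, x⟫_ℝ + g (pr e x) < A} :=
      isOpen_lt (by fun_prop) continuous_const
    have h2 : IsOpen {x : E | -⟪e, x⟫_ℝ + g (-pr e x) < A} :=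
      isOpen_lt (by fun_prop) continuous_const
    have h3 : IsOpen {x : E | ‖x‖ < 1} := isOpen_lt (by fun_prop) continuous_const
    exact h3.inter (h1.inter h2)
  · simp [h0]

variable [MeasurableSpace E] [BorelSpace E]

lemma body_vol {e : E} (he : ‖e‖ = 1) {K0 : Set (ℝ ∙ e)ᗮ} (hK : IsClosed K0) (A : ℝ)
    {g : (ℝ ∙ e)ᗮ → ℝ} (hg : Continuous g) (h0 : ∀ y, 0 ≤ g y) :
    volume (body e K0 A g) ≤ ENNReal.ofReal (2 * A) * volume K0 := by
  rw [slice e he (body_closed e hK A hg).measurableSet, ← setLIntegral_const,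
    ← lintegral_indicator hK.measurableSet]
  refine lintegral_mono fun y => ?_
  by_cases hy : y ∈ K0
  · rw [indicator_of_mem hy]
    have h1 : {t : ℝ | t • e + (y : E) ∈ body e K0 A g} ⊆ Icc (-A) A := by
      rintro t ⟨-, h2, h3⟩
      rw [pr_line he, inner_line he] at h2 h3
      exact ⟨by linarith [h0 (-y)], by linarith [h0 y]⟩
    refine (measure_mono h1).trans (le_of_eq ?_)
    rw [Real.volume_Icc]
    refine congrArg _ ?_
    ring
  · rw [indicator_of_notMem hy]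
    have h1 : {t : ℝ | t • e + (y : E) ∈ body e K0 A g} = ∅ := by
      refine eq_empty_of_forall_notMem ?_
      rintro t ⟨h2, -, -⟩
      rw [pr_line he] at h2
      exact hy h2
    rw [h1, measure_empty]

/-- the upper layer -/
def layer (e : E) (K0 : Set (ℝ ∙ e)ᗮ) (A η : ℝ) (h : (ℝ ∙ e)ᗮ → ℝ) : Set E :=
  {x | pr e x ∈ K0 ∧ A < ⟪e, x⟫_ℝ + η * (‖pr e x‖ ^ 2 + h (pr e x)) ∧
    ⟪e, x⟫_ℝ + η * ‖pr e x‖ ^ 2 ≤ A}

lemma layer_meas (e : E) {K0 : Set (ℝ ∙ e)ᗮ} (hK : IsClosed K0) (A η : ℝ) {h : (ℝ ∙ e)ᗮ → ℝ}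
    (hh : Continuous h) : MeasurableSet (layer e K0 A η h) := by
  have h1 : IsOpen {x : E | A < ⟪e, x⟫_ℝ + η * (‖pr e x‖ ^ 2 + h (pr e x))} :=
    isOpen_lt continuous_const (by fun_prop)
  have h2 : IsClosed {x : E | ⟪e, x⟫_ℝ + η * ‖pr e x‖ ^ 2 ≤ A} :=
    isClosed_le (by fun_prop) continuous_const
  exact (hK.preimage (pr e).continuous).measurableSet.inter
    (h1.measurableSet.inter h2.measurableSet)

lemma layer_vol {e : E} (he : ‖e‖ = 1) {K0 : Set (ℝ ∙ e)ᗮ} (hK : IsClosed K0) (A η : ℝ)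
    {h : (ℝ ∙ e)ᗮ → ℝ} (hh : Continuous h) :
    ∫⁻ y in K0, ENNReal.ofReal (η * h y) ≤ volume (layer e K0 A η h) := by
  rw [slice e he (layer_meas e hK A η hh), ← lintegral_indicator hK.measurableSet]
  refine lintegral_mono fun y => ?_
  by_cases hy : y ∈ K0
  · rw [indicator_of_mem hy]
    have h1 : Ioc (A - η * (‖y‖ ^ 2 + h y)) (A - η * ‖y‖ ^ 2) ⊆
        {t : ℝ | t • e + (y : E) ∈ layer e K0 A η h} := by
      rintro t ⟨h2, h3⟩
      refine ⟨?_, ?_, ?_⟩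
      · rw [pr_line he]; exact hy
      · rw [pr_line he, inner_line he]; linarith
      · rw [pr_line he, inner_line he]; linarith
    refine le_trans (le_of_eq ?_) (measure_mono h1)
    rw [Real.volume_Ioc]
    refine congrArg _ ?_
    ring
  · rw [indicator_of_notMem hy]
    exact bot_le

end

lemma hh_mass {V : Type*} [NormedAddCommGroup V] [InnerProductSpace ℝ V] [FiniteDimensional ℝ V]
    [MeasurableSpace V] [BorelSpace V] {I : Type} [Fintype I] [Nonempty I] (p : I → V)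
    {K0 : Set V} {R η : ℝ} (hη : 0 ≤ η) (hR : 4 * ((finrank ℝ V : ℝ) + 1) ≤ R ^ 2) (h0 : 0 ≤ R)
    (hp : ∀ i, Metric.closedBall (p i) R ⊆ K0) :
    ENNReal.ofReal (η * (s2 ^ finrank ℝ V / 2)) ≤ ∫⁻ y in K0, ENNReal.ofReal (η * hh p y) := by
  have hc : (0 : ℝ) < Fintype.card I := by exact_mod_cast Fintype.card_pos
  have hs := one_le_s2
  have e : ∀ y, ENNReal.ofReal (η * hh p y) = ENNReal.ofReal (η * (1 / Fintype.card I)) *
      ∑ i, ENNReal.ofReal (Real.exp (-(1 / 2) * ‖y - p i‖ ^ 2)) := by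
    intro y
    rw [← ENNReal.ofReal_sum_of_nonneg fun i _ => (Real.exp_pos _).le,
      ← ENNReal.ofReal_mul (by positivity), hh, mul_assoc]
  simp only [e]
  rw [lintegral_const_mul' _ _ ENNReal.ofReal_ne_top, lintegral_finset_sum _ (fun i _ => by fun_prop)]
  have h1 : ∑ _i : I, ENNReal.ofReal (s2 ^ finrank ℝ V / 2) ≤
      ∑ i, ∫⁻ y in K0, ENNReal.ofReal (Real.exp (-(1 / 2) * ‖y - p i‖ ^ 2)) :=
    sum_le_sum fun i _ => (ball_mass (p i) hR h0).trans (lintegral_mono_set (hp i))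
  refine le_trans (le_of_eq ?_) (mul_le_mul_right h1 _)
  rw [sum_const, card_univ, nsmul_eq_mul, ← ENNReal.ofReal_natCast,
    ← ENNReal.ofReal_mul (by positivity), ← ENNReal.ofReal_mul (by positivity)]
  refine congrArg _ ?_
  field_simp

end Pool.Agent.H.MP_ad3614_gt
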