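import Pool.Agent.H.MP_ad3614_gt.Rad
import Pool.Agent.H.MP_ad3614_gt.Slice

namespace Pool.Agent.H.MP_ad3614_gt
open MeasureTheory Set Module Finset
open scoped InnerProductSpace Pointwise

lemma params {κ : ℝ} (hκ : 0 < κ) : ∃ (r q : ℕ) (L : ℝ), 0 < r ∧ 0 < q ∧ 0 < L ∧
    (1 - 1 / 18 : ℝ) ^ r + (1 / q + Real.exp (-(1 / 2) * L ^ 2)) ≤ κ := by
  obtain ⟨r, hr⟩ := exists_pow_lt_of_lt_one (show 0 < κ / 3 by linarith)
    (show (1 - 1 / 18 : ℝ) < 1 by norm_num)
  obtain ⟨q, hq⟩ := exists_nat_one_div_lt (show 0 < κ / 3 by linarith)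
  refine ⟨r + 1, q + 1, 6 / κ + 1, by omega, by omega, by positivity, ?_⟩
  have h1 : (1 - 1 / 18 : ℝ) ^ (r + 1) ≤ κ / 3 := by
    rw [pow_succ]
    have : (0 : ℝ) ≤ (1 - 1 / 18) ^ r := by positivity
    linarith
  have h2 : Real.exp (-(1 / 2) * (6 / κ + 1) ^ 2) ≤ κ / 3 := by
    have h3 : 0 < 6 / κ := by positivity
    have h4 : 3 / κ ≤ (1 / 2) * (6 / κ + 1) ^ 2 := by
      have e : 3 / κ = (1 / 2) * (6 / κ) := by ring
      rw [e]
      nlinarith
    have h5 : 3 / κ ≤ Real.exp ((1 / 2) * (6 / κ + 1) ^ 2) := by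
      have := Real.add_one_le_exp ((1 / 2) * (6 / κ + 1) ^ 2)
      linarith
    rw [neg_mul, Real.exp_neg]
    have h6 : (κ / 3) = (3 / κ)⁻¹ := by rw [inv_div]
    rw [h6]
    exact inv_anti₀ (by positivity) h5
  push_cast
  linarith

lemma conf {κ : ℝ} (hκ : 0 < κ) : ∃ d : ℕ, 1 ≤ d ∧ ∀ (V : Type) [NormedAddCommGroup V]
    [InnerProductSpace ℝ V] [FiniteDimensional ℝ V] [MeasurableSpace V] [BorelSpace V],
    finrank ℝ V = d * d → ∃ (I : Type) (_ : Fintype I) (_ : Nonempty I) (p : I → V) (K0 : Set V),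
      IsCompact K0 ∧ Convex ℝ K0 ∧ (∀ y ∈ K0, -y ∈ K0) ∧ Metric.closedBall 0 1 ⊆ K0 ∧
      (∀ y ∈ K0, ‖y‖ ≤ 4 * ((d : ℝ) * d)) ∧ (∀ i, Metric.closedBall (p i) (3 * d) ⊆ K0) ∧
      volume K0 ≤ ENNReal.ofReal (192 ^ (d * d)) ∧
      ∀ ν : V, ‖ν‖ = 1 → ∀ a : ℝ,
        ∑ i, Real.exp (-(1 / 2) * (⟪p i, ν⟫_ℝ - a) ^ 2) ≤ κ * Fintype.card I := by
  obtain ⟨r, q, L, hr, hq, hL, hκ'⟩ := params hκ
  have hr' : (0 : ℝ) < r := by exact_mod_cast hr
  have hq' : (0 : ℝ) < q := by exact_mod_cast hq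
  obtain ⟨Λ, hΛ⟩ : ∃ Λ : ℝ, Λ = r * q * (4 * L) := ⟨_, rfl⟩
  have hΛ0 : 0 < Λ := by rw [hΛ]; positivity
  obtain ⟨d0, hd0⟩ := exists_nat_ge (Λ ^ 2)
  refine ⟨d0 + 1, by omega, ?_⟩
  obtain ⟨d, hd⟩ : ∃ d, d = d0 + 1 := ⟨_, rfl⟩
  rw [← hd]
  have hd1 : (1 : ℝ) ≤ d := by rw [hd]; push_cast; linarith [Nat.cast_nonneg (α := ℝ) d0]
  have hΛd : Λ ^ 2 ≤ d := by rw [hd]; push_cast; linarith
  have hΛd' : Λ ≤ d := by nlinarith
  intro V _ _ _ _ _ hV
  let b : OrthonormalBasis (Fin d × Fin d) ℝ V :=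
    (stdOrthonormalBasis ℝ V).reindex ((finCongr hV).trans finProdFinEquiv.symm)
  let Y : (Fin d → Bool) × (Fin d → Bool) → V := fun w =>
    b.repr.symm (WithLp.toLp 2 fun k => sg (w.1 k.1) * sg (w.2 k.2))
  have hY : ∀ w, ‖Y w‖ = d := by
    intro w
    have h1 : ‖Y w‖ ^ 2 = (d : ℝ) ^ 2 := by
      simp only [Y, LinearIsometryEquiv.norm_map]
      rw [EuclideanSpace.norm_sq_eq]
      simp only [Real.norm_eq_abs, sq_abs, mul_pow, sg_sq]
      simp [sq]
    exact (pow_left_inj₀ (norm_nonneg _) (by linarith) two_ne_zero).1 h1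
  have hYi : ∀ w ν, ⟪Y w, ν⟫_ℝ = zz (fun k => b.repr ν k) w := by
    intro w ν
    have h1 : ⟪Y w, ν⟫_ℝ = ⟪b.repr (Y w), b.repr ν⟫_ℝ := (b.repr.inner_map_map _ _).symm
    rw [h1]
    simp only [Y, LinearIsometryEquiv.apply_symm_apply, PiLp.inner_apply, zz]
    refine sum_congr rfl fun k _ => ?_
    simp [mul_comm]
  let g : ((Fin d → Bool) × (Fin d → Bool)) × Bool → V := fun w => (sg w.2 * Λ) • Y w.1
  have hg : ∀ w, ‖g w‖ ≤ Λ * d := by
    intro w
    have : |sg w.2| = 1 := by cases w.2 <;> simp [sg]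
    simp only [g, norm_smul, hY, Real.norm_eq_abs, abs_mul, this, abs_of_pos hΛ0, one_mul, le_refl]
  let K1 : Set V := convexHull ℝ (range g)
  have hK1 : Convex ℝ K1 := convex_convexHull ℝ _
  have hsm : ∀ (s : ℝ) w, |s| ≤ Λ → s • Y w ∈ K1 := by
    intro s w hs
    have h1 : g (w, true) ∈ K1 := subset_convexHull ℝ _ ⟨_, rfl⟩
    have h2 : g (w, false) ∈ K1 := subset_convexHull ℝ _ ⟨_, rfl⟩
    have h3 := abs_le.1 hs
    have h4 := hK1 h1 h2 (a := (Λ + s) / (2 * Λ)) (b := (Λ - s) / (2 * Λ))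
      (div_nonneg (by linarith) (by linarith)) (div_nonneg (by linarith) (by linarith))
      (by field_simp; ring)
    have e : ((Λ + s) / (2 * Λ)) • g (w, true) + ((Λ - s) / (2 * Λ)) • g (w, false) = s • Y w := by
      simp only [g, smul_smul, ← add_smul, sg, if_true, Bool.false_eq_true, if_false]
      refine congrArg (· • Y w) ?_
      field_simp
      ring
    rwa [e] at h4
  have hneg : ∀ x ∈ K1, -x ∈ K1 := by
    intro x hx
    have h1 : -(range g) ⊆ range g := by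
      rintro y hy
      obtain ⟨w, hw⟩ := Set.mem_neg.1 hy
      refine ⟨(w.1, !w.2), ?_⟩
      rw [← neg_neg y, ← hw]
      simp only [g, sg_not, neg_mul, neg_smul]
    have h2 : -x ∈ convexHull ℝ (-(range g)) := by
      rw [convexHull_neg]
      simpa using hx
    exact convexHull_mono h1 h2
  have hK1n : ∀ x ∈ K1, ‖x‖ ≤ Λ * d := by
    intro x hx
    have := convexHull_min (s := range g) (t := Metric.closedBall 0 (Λ * d))
      (by rintro _ ⟨w, rfl⟩; simpa using hg w) (convex_closedBall _ _) hx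
    simpa using this
  let p : (Fin r → ((Fin d → Bool) × (Fin d → Bool)) × Fin q) → V := fun f =>
    ∑ j, ((((f j).2 : ℕ) : ℝ) * (4 * L)) • Y (f j).1
  have hp : ∀ f, p f ∈ K1 := by
    intro f
    have h1 := hK1.sum_mem (t := univ) (w := fun _ : Fin r => (1 / r : ℝ))
      (z := fun j => ((r : ℝ) * ((((f j).2 : ℕ) : ℝ) * (4 * L))) • Y (f j).1)
      (fun _ _ => by positivity) (by simp; field_simp) (fun j _ => hsm _ _ (by
        rw [abs_of_nonneg (by positivity), hΛ]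
        have h2 : (((f j).2 : ℕ) : ℝ) ≤ q := by exact_mod_cast (f j).2.2.le
        rw [mul_assoc]
        exact mul_le_mul_of_nonneg_left (mul_le_mul_of_nonneg_right h2 (by linarith)) hr'.le))
    have e : ∑ j : Fin r, (1 / r : ℝ) • ((r : ℝ) * ((((f j).2 : ℕ) : ℝ) * (4 * L))) • Y (f j).1 =
        p f := by
      refine sum_congr rfl fun j _ => ?_
      rw [smul_smul]
      refine congrArg (· • Y (f j).1) ?_
      field_simp
    rwa [e] at h1
  have h0 : (0 : V) ∈ K1 := by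
    have := hsm 0 (fun _ => true, fun _ => true) (by simpa using hΛ0.le)
    simpa using this
  have hball : ∀ x ∈ K1, Metric.closedBall x (3 * d) ⊆ K1 + Metric.closedBall (0 : V) (3 * d) := by
    intro x hx y hy
    refine ⟨x, hx, y - x, ?_, by simp⟩
    simpa [dist_eq_norm] using hy
  haveI : Nonempty (Fin q) := ⟨⟨0, hq⟩⟩
  refine ⟨_, inferInstance, inferInstance, p, K1 + Metric.closedBall (0 : V) (3 * d),
    ((finite_range g).isCompact_convexHull ℝ).add (isCompact_closedBall _ _),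
    hK1.add (convex_closedBall _ _), ?_, ?_, ?_, fun f => hball _ (hp f), ?_, ?_⟩
  · rintro _ ⟨x, hx, y, hy, rfl⟩
    refine ⟨-x, hneg x hx, -y, by simpa using hy, ?_⟩
    simp only [neg_add_rev]
    abel
  · exact (Metric.closedBall_subset_closedBall (by linarith)).trans (hball 0 h0)
  · rintro _ ⟨x, hx, y, hy, rfl⟩
    have h1 := hK1n x hx
    have h2 : ‖y‖ ≤ 3 * d := by simpa using hy
    have h3 := norm_add_le x y
    have h4 : Λ * d ≤ d * d := mul_le_mul_of_nonneg_right hΛd' (by linarith)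
    have h5 : (d : ℝ) ≤ d * d := by nlinarith
    show ‖x + y‖ ≤ _
    linarith
  · have hcov : K1 + Metric.closedBall (0 : V) (3 * d) ⊆
        ⋃ f : Fin d → ((Fin d → Bool) × (Fin d → Bool)) × Bool,
          Metric.closedBall ((1 / d : ℝ) • ∑ k, g (f k)) (4 * d) := by
      rintro _ ⟨x, hx, y, hy, rfl⟩
      obtain ⟨f, hf⟩ := maurey g hg hx d
      refine mem_iUnion.2 ⟨f, ?_⟩
      have h2 : ‖y‖ ≤ 3 * d := by simpa using hy
      have h3 : ‖∑ k, (g (f k) - x)‖ ≤ (d : ℝ) * d := by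
        refine (pow_le_pow_iff_left₀ (norm_nonneg _) (by positivity) two_ne_zero).1 (hf.trans ?_)
        have h4 : (0 : ℝ) ≤ d * d * d := by positivity
        have h5 := mul_le_mul_of_nonneg_left hΛd h4
        nlinarith
      have e : x + y - (1 / d : ℝ) • ∑ k, g (f k) = y - (1 / d : ℝ) • ∑ k, (g (f k) - x) := by
        rw [sum_sub_distrib, smul_sub]
        simp only [sum_const, card_univ, Fintype.card_fin]
        rw [← Nat.cast_smul_eq_nsmul ℝ, smul_smul]
        have : (1 / d : ℝ) * d = 1 := by field_simp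
        rw [this, one_smul]
        abel
      show dist (x + y) _ ≤ _
      rw [dist_eq_norm, e]
      refine (norm_sub_le _ _).trans ?_
      rw [norm_smul, Real.norm_eq_abs, abs_of_pos (by positivity)]
      have h6 : (1 / d : ℝ) * ‖∑ k, (g (f k) - x)‖ ≤ (1 / d : ℝ) * (d * d) :=
        mul_le_mul_of_nonneg_left h3 (by positivity)
      have h7 : (1 / d : ℝ) * (d * d) = d := by field_simp
      linarith
    refine (measure_mono hcov).trans ((measure_iUnion_fintype_le _ _).trans ?_)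
    refine (sum_le_sum fun f _ => ball_vol _ (ρ := 4 * d) (by rw [hV]; push_cast; nlinarith)
      (by positivity)).trans ?_
    rw [sum_const, card_univ, hV, nsmul_eq_mul, ← ENNReal.ofReal_natCast,
      ← ENNReal.ofReal_mul (by positivity)]
    refine ENNReal.ofReal_le_ofReal ?_
    simp only [Fintype.card_pi, Fintype.card_prod, Fintype.card_bool, prod_const, card_univ,
      Fintype.card_fin, Nat.cast_pow, Nat.cast_mul, Nat.cast_ofNat]
    have h1 : (2 : ℝ) ^ d * 2 ^ d * 2 ≤ 8 ^ d := by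
      have h2 : (2 : ℝ) ≤ 2 ^ d := by
        have : (2 : ℝ) ^ 1 ≤ 2 ^ d := pow_le_pow_right₀ (by norm_num) (by omega)
        simpa using this
      have h3 : (8 : ℝ) ^ d = 2 ^ d * 2 ^ d * 2 ^ d := by
        rw [← mul_pow, ← mul_pow]; norm_num
      rw [h3]
      exact mul_le_mul_of_nonneg_left h2 (by positivity)
    have h4 : ((2 : ℝ) ^ d * 2 ^ d * 2) ^ d ≤ 8 ^ (d * d) := by
      rw [pow_mul]
      exact pow_le_pow_left₀ (by positivity) h1 d
    have h5 : (192 : ℝ) ^ (d * d) = 8 ^ (d * d) * 24 ^ (d * d) := by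
      rw [← mul_pow]; norm_num
    rw [h5]
    exact mul_le_mul_of_nonneg_right h4 (by positivity)
  · intro ν hν a
    have h1 : ∑ k, (b.repr ν k) ^ 2 = 1 := by
      have := EuclideanSpace.norm_sq_eq (b.repr ν)
      rw [LinearIsometryEquiv.norm_map, hν] at this
      simp only [Real.norm_eq_abs, sq_abs] at this
      rw [← this]; norm_num
    have h2 := pz (fun k => b.repr ν k) h1
    have h3 := anti (fun w => 4 * L * zz (fun k => b.repr ν k) w) (c := 1 / 18) hL q hq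
      (by norm_num) (by
        refine le_trans (le_of_eq ?_) (h2.trans (sum_le_sum fun w _ => ?_))
        · simp
        · by_cases h : 1 / 2 ≤ |zz (fun k => b.repr ν k) w|
          · rw [if_pos h, if_pos]
            rw [abs_mul, abs_of_pos (by linarith)]
            nlinarith
          · rw [if_neg h]
            split_ifs <;> norm_num) r a
    refine le_trans (le_of_eq (sum_congr rfl fun f _ => ?_)) (h3.trans ?_)
    · simp only [p, sum_inner, real_inner_smul_left, hYi, mul_assoc]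
    · rw [mul_comm]
      refine mul_le_mul hκ' (le_of_eq ?_) (by positivity) hκ.le
      simp

end Pool.Agent.H.MP_ad3614_gt
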