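import Pool.Agent.H.MP_ad3614_gt.Sec

namespace Pool.Agent.H.MP_ad3614_gt
open MeasureTheory Set Module Finset
open scoped InnerProductSpace Pointwise

lemma real_gap {a b δ X : ℝ} {N : ℕ} (hN : 2 ≤ N) (hb : 0 ≤ b) (hδ : 0 < δ) (hab : b + δ ≤ a)
    (hX : 0 < X) (ha : a ≤ X ^ N) :
    δ / (2 * X) ≤ a ^ (((N : ℝ) - 1) / N) - b ^ (((N : ℝ) - 1) / N) := by
  have hN' : (2 : ℝ) ≤ N := by exact_mod_cast hN
  have ha0 : 0 < a := by linarith
  obtain ⟨s, hs⟩ : ∃ s : ℝ, s = ((N : ℝ) - 1) / N := ⟨_, rfl⟩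
  rw [← hs]
  have hs1 : s ≤ 1 := by rw [hs, div_le_one (by linarith)]; linarith
  have hs2 : 1 / 2 ≤ s := by rw [hs, le_div_iff₀ (by linarith)]; linarith
  have h1 : b ^ s ≤ (a - δ) ^ s := Real.rpow_le_rpow hb (by linarith) (by linarith)
  have h2 : a - δ = a * (1 + -(δ / a)) := by field_simp; ring
  have h3 : -1 ≤ -(δ / a) := by
    rw [neg_le_neg_iff, div_le_one ha0]; linarith
  have h4 := rpow_one_add_le_one_add_mul_self h3 (show 0 ≤ s by linarith) hs1
  have h5 : (a - δ) ^ s ≤ a ^ s * (1 + s * -(δ / a)) := by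
    rw [h2, Real.mul_rpow ha0.le (by linarith)]
    exact mul_le_mul_of_nonneg_left h4 (Real.rpow_nonneg ha0.le _)
  have h6 : a ≤ a ^ s * X := by
    have e : a = a ^ s * a ^ ((N : ℝ)⁻¹) := by
      rw [← Real.rpow_add ha0]
      have : s + (N : ℝ)⁻¹ = 1 := by rw [hs]; field_simp; ring
      rw [this, Real.rpow_one]
    have h7 : a ^ ((N : ℝ)⁻¹) ≤ X := by
      have h8 := Real.rpow_le_rpow ha0.le ha (show 0 ≤ (N : ℝ)⁻¹ by positivity)
      rwa [Real.pow_rpow_inv_natCast hX.le (by omega)] at h8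
    calc a = a ^ s * a ^ ((N : ℝ)⁻¹) := e
      _ ≤ a ^ s * X := mul_le_mul_of_nonneg_left h7 (Real.rpow_nonneg ha0.le _)
  have h9 : δ / (2 * X) ≤ a ^ s * (s * (δ / a)) := by
    have h10 : 0 < a ^ s := Real.rpow_pos_of_pos ha0 _
    have h11 : 1 / X ≤ a ^ s / a := by
      rw [div_le_div_iff₀ hX ha0]; linarith
    have e1 : δ / (2 * X) = (1 / X) * (1 / 2) * δ := by field_simp
    have e2 : a ^ s * (s * (δ / a)) = (a ^ s / a) * s * δ := by field_simp
    rw [e1, e2]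
    refine mul_le_mul_of_nonneg_right ?_ hδ.le
    exact mul_le_mul h11 hs2 (by norm_num) (by positivity)
  linarith

lemma sec_eq {E : Type*} [NormedAddCommGroup E] [InnerProductSpace ℝ E] [FiniteDimensional ℝ E]
    [MeasurableSpace E] [BorelSpace E] (F : Submodule ℝ E) {k : ℕ} (hF : finrank ℝ F = k)
    (S : Set E) : Measure.euclideanHausdorffMeasure k (S ∩ (F : Set E)) =
      volume {x : F | (x : E) ∈ S} := by
  have h1 := (isometry_subtype_coe (s := (F : Set E))).euclideanHausdorffMeasure_preimage (d := k) S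
  rw [Subtype.range_coe] at h1
  rw [← h1, ← hF]
  exact congrArg (fun μ : Measure F => μ {x : F | (x : E) ∈ S})
    (InnerProductSpace.euclideanHausdorffMeasure_eq_volume (V := F))

theorem main (C : ℝ) : ∃ n : ℕ, 1 < n ∧ ∃ K L : Set (EuclideanSpace ℝ (Fin n)),
    (IsCompact K ∧ Convex ℝ K ∧ (interior K).Nonempty ∧ K = -K) ∧
    (IsCompact L ∧ Convex ℝ L ∧ (interior L).Nonempty ∧ L = -L) ∧ L ⊆ K ∧
    ∃ M : ℝ, (∀ F : Submodule ℝ (EuclideanSpace ℝ (Fin n)), finrank ℝ F = n - 1 →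
      (Measure.euclideanHausdorffMeasure (n - 1) (K ∩ (F : Set _))).toReal -
        (Measure.euclideanHausdorffMeasure (n - 1) (L ∩ (F : Set _))).toReal ≤ M) ∧
      C * M < (volume K).toReal ^ (((n : ℝ) - 1) / n) - (volume L).toReal ^ (((n : ℝ) - 1) / n) := by
  obtain ⟨κ, hκe⟩ : ∃ κ : ℝ, κ = 1 / (40000 * (|C| + 1)) := ⟨_, rfl⟩
  have hκ : 0 < κ := by rw [hκe]; positivity
  obtain ⟨d, hd, hconf⟩ := conf hκ
  have hdd : 1 ≤ d * d := Nat.mul_le_mul hd hd
  obtain ⟨m, hm⟩ : ∃ m, d * d = m + 1 := ⟨d * d - 1, by omega⟩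
  have hd1 : (1 : ℝ) ≤ d := by exact_mod_cast hd
  have hmr : (d : ℝ) * d = m + 1 := by exact_mod_cast hm
  refine ⟨m + 1 + 1, by omega, ?_⟩
  obtain ⟨e, he⟩ : ∃ e : EuclideanSpace ℝ (Fin (m + 1 + 1)), ‖e‖ = 1 :=
    ⟨EuclideanSpace.single 0 1, by simp⟩
  have hV : finrank ℝ (ℝ ∙ e)ᗮ = m + 1 := by
    have : Fact (finrank ℝ (EuclideanSpace ℝ (Fin (m + 1 + 1))) = m + 1 + 1) := ⟨by simp⟩
    exact Submodule.finrank_orthogonal_span_singleton
      (by intro h; rw [h, norm_zero] at he; linarith)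
  obtain ⟨I, _, _, p, K0, hc, hcv, hng, hb1, hB, hp, hvol, hanti⟩ :=
    hconf (ℝ ∙ e)ᗮ (hV.trans hm.symm)
  obtain ⟨B, hBe⟩ : ∃ B : ℝ, B = 4 * ((d : ℝ) * d) := ⟨_, rfl⟩
  rw [← hBe] at hB
  have hm0 : (0 : ℝ) ≤ m := Nat.cast_nonneg m
  have hB1 : 1 ≤ B := by rw [hBe, hmr]; linarith
  obtain ⟨η, hη⟩ : ∃ η : ℝ, η = 1 / (16 * B ^ 3) := ⟨_, rfl⟩
  have hη0 : 0 < η := by rw [hη]; positivity
  have hB2 : 1 ≤ B ^ 2 := one_le_pow₀ hB1
  have hηB : η * (2 * B ^ 2) ≤ 1 := by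
    have e1 : η * (2 * B ^ 2) = 1 / (8 * B) := by rw [hη]; field_simp; ring
    rw [e1, div_le_one (by linarith)]; linarith
  have hpB : ∀ i, ‖p i‖ ≤ B := fun i => hB _ (hp i (Metric.mem_closedBall_self (by linarith)))
  let g1 : (ℝ ∙ e)ᗮ → ℝ := fun y => η * ‖y‖ ^ 2
  let g2 : (ℝ ∙ e)ᗮ → ℝ := fun y => η * (‖y‖ ^ 2 + hh p y)
  have hhc := hh_cont p
  have g1c : Continuous g1 := by fun_prop
  have g2c : Continuous g2 := by fun_prop
  have g10 : ∀ y, 0 ≤ g1 y := fun y => by positivity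
  have g20 : ∀ y, 0 ≤ g2 y := fun y => mul_nonneg hη0.le (by linarith [hh_nonneg p y, sq_nonneg ‖y‖])
  have g12 : ∀ y, g1 y ≤ g2 y := fun y =>
    mul_le_mul_of_nonneg_left (by linarith [hh_nonneg p y]) hη0.le
  have g2B : ∀ y ∈ K0, g2 y ≤ 1 := by
    intro y hy
    have h4 : ‖y‖ ^ 2 ≤ B ^ 2 := pow_le_pow_left₀ (norm_nonneg _) (hB y hy) 2
    have h5 := hh_le_one p y
    exact (mul_le_mul_of_nonneg_left (by linarith) hη0.le).trans hηB
  have h00 : (0 : (ℝ ∙ e)ᗮ) ∈ K0 := hb1 (Metric.mem_closedBall_self (by norm_num))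
  have hKc := body_compact he hc (B + 2) g1c g10
  have hLc := body_compact he hc (B + 2) g2c g20
  have hLK : body e K0 (B + 2) g2 ⊆ body e K0 (B + 2) g1 := by
    rintro x ⟨h1, h2, h3⟩
    exact ⟨h1, by linarith [g12 (pr e x)], by linarith [g12 (-pr e x)]⟩
  have hs := one_le_s2
  refine ⟨body e K0 (B + 2) g1, body e K0 (B + 2) g2,
    ⟨hKc, body_convex e hcv _ (conv_sq.smul hη0.le),
      body_int e hb1 g1c (by linarith [g12 0, g2B 0 h00]), body_symm e hng _ _⟩,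
    ⟨hLc, body_convex e hcv _ ((conv_hh p).smul hη0.le),
      body_int e hb1 g2c (by linarith [g2B 0 h00]), body_symm e hng _ _⟩, hLK,
    24 * η * (s2 ^ m * κ), ?_, ?_⟩
  · intro F hF
    rw [sec_eq F hF, sec_eq F hF]
    have h1 := section_bound he hV F hF p hc.isClosed hB1 hpB hB hη hanti
    have h2 : {x : F | (x : EuclideanSpace ℝ (Fin (m + 1 + 1))) ∈ body e K0 (B + 2) g1} ⊆
        ({x : F | (x : EuclideanSpace ℝ (Fin (m + 1 + 1))) ∈ body e K0 (B + 2) g2} ∪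
        {x : F | (x : EuclideanSpace ℝ (Fin (m + 1 + 1))) ∈ layer e K0 (B + 2) η (hh p)}) ∪
        -{x : F | (x : EuclideanSpace ℝ (Fin (m + 1 + 1))) ∈ layer e K0 (B + 2) η (hh p)} := by
      rintro x ⟨h3, h4, h5⟩
      by_cases h6 : ⟪e, (x : EuclideanSpace ℝ (Fin (m + 1 + 1)))⟫_ℝ + g2 (pr e x) ≤ B + 2
      · by_cases h7 : -⟪e, (x : EuclideanSpace ℝ (Fin (m + 1 + 1)))⟫_ℝ + g2 (-pr e x) ≤ B + 2
        · exact Or.inl (Or.inl ⟨h3, h6, h7⟩)
        · refine Or.inr (Set.mem_neg.2 ⟨?_, ?_, ?_⟩)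
          · rw [Submodule.coe_neg, map_neg]; exact hng _ h3
          · rw [Submodule.coe_neg, map_neg, inner_neg_right]; exact not_le.1 h7
          · rw [Submodule.coe_neg, map_neg, inner_neg_right]; exact h5
      · exact Or.inl (Or.inr ⟨h3, not_le.1 h6, h4⟩)
    have h3 := (measure_mono (μ := (volume : Measure F)) h2).trans ((measure_union_le _ _).trans
      (add_le_add (measure_union_le _ _) le_rfl))
    rw [Measure.measure_neg] at h3
    have h4 : IsCompact {x : F | (x : EuclideanSpace ℝ (Fin (m + 1 + 1))) ∈ body e K0 (B + 2) g2} :=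
      F.closed_of_finiteDimensional.isClosedEmbedding_subtypeVal.isCompact_preimage hLc
    have h5 := h3.trans (add_le_add (add_le_add le_rfl h1) h1)
    have hpos : 0 ≤ 12 * η * (s2 ^ m * κ) := by positivity
    have h6 := ENNReal.toReal_mono (ENNReal.add_ne_top.2 ⟨ENNReal.add_ne_top.2
      ⟨h4.measure_lt_top.ne, ENNReal.ofReal_ne_top⟩, ENNReal.ofReal_ne_top⟩) h5
    rw [ENNReal.toReal_add (ENNReal.add_ne_top.2 ⟨h4.measure_lt_top.ne, ENNReal.ofReal_ne_top⟩)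
      ENNReal.ofReal_ne_top, ENNReal.toReal_add h4.measure_lt_top.ne ENNReal.ofReal_ne_top,
      ENNReal.toReal_ofReal hpos] at h6
    linarith
  · have h1 := (hh_mass p hη0.le (R := 3 * d) (by rw [hV]; push_cast; nlinarith) (by linarith)
      hp).trans (layer_vol he hc.isClosed (B + 2) η hhc)
    rw [hV] at h1
    have h2 : body e K0 (B + 2) g2 ∪ layer e K0 (B + 2) η (hh p) ⊆ body e K0 (B + 2) g1 := by
      refine union_subset hLK ?_
      rintro x ⟨h3, h4, h5⟩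
      refine ⟨h3, h5, ?_⟩
      have h6 := g2B _ h3
      have h7 := g2B _ (hng _ h3)
      have h8 := g12 (-pr e x)
      have h9 : B + 2 < ⟪e, x⟫_ℝ + g2 (pr e x) := h4
      linarith
    have h3 : Disjoint (body e K0 (B + 2) g2) (layer e K0 (B + 2) η (hh p)) := by
      rw [Set.disjoint_left]
      rintro x ⟨-, h4, -⟩ ⟨-, h5, -⟩
      exact absurd h4 (not_le.2 h5)
    have h4 := measure_mono (μ := volume) h2
    rw [measure_union h3 (layer_meas e hc.isClosed _ _ hhc)] at h4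
    have hpos : 0 < η * (s2 ^ (m + 1) / 2) := by positivity
    have h5 := ENNReal.toReal_mono hKc.measure_lt_top.ne ((add_le_add le_rfl h1).trans h4)
    rw [ENNReal.toReal_add hLc.measure_lt_top.ne ENNReal.ofReal_ne_top,
      ENNReal.toReal_ofReal hpos.le] at h5
    have h6 : (volume (body e K0 (B + 2) g1)).toReal ≤ 384 ^ (m + 1 + 1) := by
      have h7 := (body_vol he hc.isClosed (B + 2) g1c g10).trans (mul_le_mul_right hvol _)
      rw [← ENNReal.ofReal_mul (by linarith), hm] at h7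
      refine (ENNReal.toReal_le_of_le_ofReal (by positivity) h7).trans ?_
      have h8 : ((m + 1 : ℕ) : ℝ) ≤ 2 ^ (m + 1) := by exact_mod_cast (Nat.lt_two_pow_self).le
      have h9 : (384 : ℝ) ^ (m + 1 + 1) = 384 * 2 ^ (m + 1) * 192 ^ (m + 1) := by
        rw [pow_succ (384 : ℝ) (m + 1), mul_assoc, ← mul_pow]; norm_num [mul_comm]
      rw [h9]
      refine mul_le_mul_of_nonneg_right ?_ (by positivity)
      push_cast at h8
      rw [hBe, hmr]
      linarith
    have h10 := real_gap (N := m + 1 + 1) (by omega) ENNReal.toReal_nonneg hpos h5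
      (by norm_num) h6
    refine lt_of_lt_of_le ?_ h10
    have h11 : C * κ ≤ 1 / 40000 := by
      rw [hκe, mul_one_div, div_le_div_iff₀ (by positivity) (by norm_num)]
      linarith [le_abs_self C]
    have h12 : 0 < η * s2 ^ m := by positivity
    have h13 := mul_le_mul_of_nonneg_left h11 h12.le
    have h14 := mul_le_mul_of_nonneg_left hs h12.le
    have e1 : C * (24 * η * (s2 ^ m * κ)) = 24 * (η * s2 ^ m * (C * κ)) := by ring
    have e2 : η * (s2 ^ (m + 1) / 2) / (2 * 384) = (η * s2 ^ m * s2) / 1536 := by ring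
    rw [e1, e2]
    linarith

end Pool.Agent.H.MP_ad3614_gt
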