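import Mathlib

namespace Pool.Agent.H.MP_ad3614_gt
open Set Module Finset
open scoped InnerProductSpace

/-- sign -/
def sg (b : Bool) : ℝ := if b then 1 else -1

lemma sg_sq (b : Bool) : sg b ^ 2 = 1 := by cases b <;> simp [sg]

lemma sg_not (b : Bool) : sg (!b) = -sg b := by cases b <;> simp [sg]

lemma sum_succ {α : Type*} [Fintype α] {d : ℕ} (f : (Fin (d + 1) → α) → ℝ) :
    ∑ u, f u = ∑ a : α, ∑ u : Fin d → α, f (Fin.cons a u) := by
  rw [← Fintype.sum_prod_type' (f := fun a (u : Fin d → α) => f (Fin.cons a u))]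
  exact (Fintype.sum_equiv (Fin.consEquiv fun _ => α) _ _ fun x => rfl).symm

section
variable {H : Type*} [NormedAddCommGroup H] [InnerProductSpace ℝ H]

lemma rad2 : ∀ (d : ℕ) (x : Fin d → H),
    ∑ u : Fin d → Bool, ‖∑ i, sg (u i) • x i‖ ^ 2 = 2 ^ d * ∑ i, ‖x i‖ ^ 2 := by
  intro d
  induction d with
  | zero => intro x; simp
  | succ d ih =>
    intro x
    rw [sum_succ, Fintype.sum_bool, ← sum_add_distrib, Fin.sum_univ_succ (fun i => ‖x i‖ ^ 2)]
    have h1 : ∀ u : Fin d → Bool,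
        ‖∑ i, sg ((Fin.cons true u : Fin (d + 1) → Bool) i) • x i‖ ^ 2 +
        ‖∑ i, sg ((Fin.cons false u : Fin (d + 1) → Bool) i) • x i‖ ^ 2 =
        2 * ‖x 0‖ ^ 2 + 2 * ‖∑ i, sg (u i) • x i.succ‖ ^ 2 := by
      intro u
      rw [Fin.sum_univ_succ, Fin.sum_univ_succ]
      simp only [Fin.cons_zero, Fin.cons_succ, sg, if_true, one_smul, Bool.false_eq_true,
        if_false, neg_smul]
      rw [norm_add_sq_real, norm_add_sq_real, inner_neg_left, norm_neg]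
      ring
    rw [sum_congr rfl fun u _ => h1 u, sum_add_distrib, ← mul_sum, ← mul_sum,
      ih fun i => x i.succ]
    simp only [sum_const, card_univ, Fintype.card_pi, Fintype.card_bool, prod_const,
      Fintype.card_fin, nsmul_eq_mul, Nat.cast_pow, Nat.cast_ofNat]
    ring

lemma rad4 : ∀ (d : ℕ) (x : Fin d → H),
    ∑ u : Fin d → Bool, ‖∑ i, sg (u i) • x i‖ ^ 4 ≤ 3 * 2 ^ d * (∑ i, ‖x i‖ ^ 2) ^ 2 := by
  intro d
  induction d with
  | zero => intro x; simp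
  | succ d ih =>
    intro x
    rw [sum_succ, Fintype.sum_bool, ← sum_add_distrib, Fin.sum_univ_succ (fun i => ‖x i‖ ^ 2)]
    have h1 : ∀ u : Fin d → Bool,
        ‖∑ i, sg ((Fin.cons true u : Fin (d + 1) → Bool) i) • x i‖ ^ 4 +
        ‖∑ i, sg ((Fin.cons false u : Fin (d + 1) → Bool) i) • x i‖ ^ 4 ≤
        2 * ‖x 0‖ ^ 4 + 12 * ‖x 0‖ ^ 2 * ‖∑ i, sg (u i) • x i.succ‖ ^ 2 +
          2 * ‖∑ i, sg (u i) • x i.succ‖ ^ 4 := by
      intro u
      rw [Fin.sum_univ_succ, Fin.sum_univ_succ]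
      simp only [Fin.cons_zero, Fin.cons_succ, sg, if_true, one_smul, Bool.false_eq_true,
        if_false, neg_smul]
      generalize (∑ i : Fin d, (if u i = true then (1 : ℝ) else -1) • x i.succ) = s
      have e1 : ‖x 0 + s‖ ^ 4 = (‖x 0‖ ^ 2 + 2 * ⟪x 0, s⟫_ℝ + ‖s‖ ^ 2) ^ 2 := by
        rw [← norm_add_sq_real]; ring
      have e2 : ‖-x 0 + s‖ ^ 4 = (‖x 0‖ ^ 2 - 2 * ⟪x 0, s⟫_ℝ + ‖s‖ ^ 2) ^ 2 := by
        have := norm_add_sq_real (-x 0) s
        rw [inner_neg_left, norm_neg] at this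
        have e3 : ‖-x 0 + s‖ ^ 4 = (‖-x 0 + s‖ ^ 2) ^ 2 := by ring
        rw [e3, this]; ring
      have e4 : ⟪x 0, s⟫_ℝ ^ 2 ≤ (‖x 0‖ * ‖s‖) ^ 2 := by
        rw [← sq_abs]
        exact pow_le_pow_left₀ (abs_nonneg _) (abs_real_inner_le_norm _ _) 2
      rw [e1, e2]
      nlinarith
    refine (sum_le_sum fun u _ => h1 u).trans ?_
    rw [sum_add_distrib, sum_add_distrib, ← mul_sum, ← mul_sum, ← mul_sum,
      rad2 d fun i => x i.succ]
    have h2 := ih fun i => x i.succ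
    simp only [sum_const, card_univ, Fintype.card_pi, Fintype.card_bool, prod_const,
      Fintype.card_fin, nsmul_eq_mul, Nat.cast_pow, Nat.cast_ofNat]
    generalize (∑ u : Fin d → Bool, ‖∑ i, sg (u i) • x (Fin.succ i)‖ ^ 4) = T at h2 ⊢
    generalize (∑ i : Fin d, ‖x (Fin.succ i)‖ ^ 2) = S at h2 ⊢
    have h3 : (0 : ℝ) ≤ 2 ^ d * ‖x 0‖ ^ 4 := by positivity
    rw [pow_succ (2 : ℝ) d]
    nlinarith

lemma maurey {ι : Type*} (g : ι → H) {B : ℝ} (hg : ∀ i, ‖g i‖ ≤ B) {x : H}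
    (hx : x ∈ convexHull ℝ (range g)) :
    ∀ m : ℕ, ∃ f : Fin m → ι, ‖∑ k, (g (f k) - x)‖ ^ 2 ≤ m * B ^ 2 := by
  have step : ∀ s : H, ∃ i, ‖(g i - x) + s‖ ^ 2 ≤ ‖s‖ ^ 2 + B ^ 2 := by
    intro s
    have h1 : ∃ i, ⟪s - x, g i⟫_ℝ ≤ ⟪s - x, x⟫_ℝ := by
      by_contra hcon
      push Not at hcon
      have hconv : Convex ℝ {y : H | ⟪s - x, x⟫_ℝ < ⟪s - x, y⟫_ℝ} :=
        convex_halfSpace_gt (f := fun y => ⟪s - x, y⟫_ℝ)
          ⟨fun a b => inner_add_right _ _ _, fun c a => real_inner_smul_right _ _ _⟩ _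
      have := convexHull_min (s := range g) (by rintro _ ⟨i, rfl⟩; exact hcon i) hconv hx
      exact lt_irrefl ⟪s - x, x⟫_ℝ this
    obtain ⟨i, hi⟩ := h1
    refine ⟨i, ?_⟩
    have e1 : (g i - x) + s = g i + (s - x) := by abel
    rw [e1, norm_add_sq_real, real_inner_comm, norm_sub_sq_real]
    rw [inner_sub_left s x x, real_inner_self_eq_norm_sq] at hi
    have e2 : ‖g i‖ ^ 2 ≤ B ^ 2 := pow_le_pow_left₀ (norm_nonneg _) (hg i) 2
    nlinarith [sq_nonneg ‖x‖]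
  intro m
  induction m with
  | zero => exact ⟨fun k => k.elim0, by simp⟩
  | succ m ih =>
    obtain ⟨f, hf⟩ := ih
    obtain ⟨i, hi⟩ := step (∑ k, (g (f k) - x))
    refine ⟨Fin.cons i f, ?_⟩
    rw [Fin.sum_univ_succ]
    simp only [Fin.cons_zero, Fin.cons_succ]
    push_cast
    linarith

end

/-- bilinear sign sum -/
noncomputable def zz {d : ℕ} (a : Fin d × Fin d → ℝ) (w : (Fin d → Bool) × (Fin d → Bool)) : ℝ :=
  ∑ k : Fin d × Fin d, sg (w.1 k.1) * sg (w.2 k.2) * a k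

lemma pz {d : ℕ} (a : Fin d × Fin d → ℝ) (ha : ∑ k, a k ^ 2 = 1) :
    (1 / 18 : ℝ) * (2 ^ d * 2 ^ d) ≤ ∑ w, (if 1 / 2 ≤ |zz a w| then (1 : ℝ) else 0) := by
  let x : Fin d → EuclideanSpace ℝ (Fin d) := fun i => WithLp.toLp 2 fun j => a (i, j)
  let s : (Fin d → Bool) → EuclideanSpace ℝ (Fin d) := fun u => ∑ i, sg (u i) • x i
  have hx : ∑ i, ‖x i‖ ^ 2 = 1 := by
    rw [← ha, Fintype.sum_prod_type]
    refine sum_congr rfl fun i _ => ?_
    rw [EuclideanSpace.norm_sq_eq]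
    simp [x]
  have hz : ∀ u v, zz a (u, v) = ∑ j, sg (v j) • (s u) j := by
    intro u v
    unfold zz
    rw [Fintype.sum_prod_type_right]
    refine sum_congr rfl fun j _ => ?_
    simp only [s, x, WithLp.ofLp_sum, WithLp.ofLp_smul, Finset.sum_apply, Pi.smul_apply,
      smul_eq_mul, mul_sum]
    refine sum_congr rfl fun i _ => ?_
    ring
  have hs : ∀ u, ∑ j, ‖(s u) j‖ ^ 2 = ‖s u‖ ^ 2 := fun u => (EuclideanSpace.norm_sq_eq _).symm
  have h2 : ∑ w, zz a w ^ 2 = 2 ^ d * 2 ^ d := by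
    rw [Fintype.sum_prod_type]
    have : ∀ u, ∑ v, zz a (u, v) ^ 2 = 2 ^ d * ‖s u‖ ^ 2 := by
      intro u
      rw [← hs, ← rad2 d fun j => (s u) j]
      refine sum_congr rfl fun v _ => ?_
      rw [hz, Real.norm_eq_abs, sq_abs]
    rw [sum_congr rfl fun u _ => this u, ← mul_sum, rad2 d x, hx, mul_one]
  have h4 : ∑ w, zz a w ^ 4 ≤ 9 * (2 ^ d * 2 ^ d) := by
    rw [Fintype.sum_prod_type]
    have : ∀ u, ∑ v, zz a (u, v) ^ 4 ≤ 3 * 2 ^ d * ‖s u‖ ^ 4 := by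
      intro u
      have h5 := rad4 d fun j => (s u) j
      rw [hs] at h5
      refine le_trans (le_of_eq ?_) (h5.trans (le_of_eq (by ring)))
      refine sum_congr rfl fun v _ => ?_
      rw [hz, Real.norm_eq_abs]
      have : ∀ t : ℝ, |t| ^ 4 = t ^ 4 := fun t => by
        have e : |t| ^ 4 = (|t| ^ 2) ^ 2 := by ring
        rw [e, sq_abs]; ring
      rw [this]
    refine (sum_le_sum fun u _ => this u).trans ?_
    rw [← mul_sum]
    have h6 := rad4 d x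
    rw [hx] at h6
    have h7 : (0 : ℝ) ≤ 3 * 2 ^ d := by positivity
    have := mul_le_mul_of_nonneg_left h6 h7
    linarith
  have h8 : ∀ w, zz a w ^ 2 ≤ 1 / 4 + (1 / 18) * zz a w ^ 4 +
      (9 / 2) * (if 1 / 2 ≤ |zz a w| then (1 : ℝ) else 0) := by
    intro w
    split_ifs with h
    · nlinarith [sq_nonneg (zz a w ^ 2 - 9)]
    · have h9 : |zz a w| ^ 2 ≤ (1 / 2) ^ 2 :=
        pow_le_pow_left₀ (abs_nonneg _) (not_le.1 h).le 2
      rw [sq_abs] at h9
      nlinarith [sq_nonneg (zz a w ^ 2)]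
  have h10 := sum_le_sum fun w (_ : w ∈ (univ : Finset ((Fin d → Bool) × (Fin d → Bool)))) => h8 w
  rw [sum_add_distrib, sum_add_distrib, ← mul_sum, ← mul_sum, h2] at h10
  simp only [sum_const, card_univ, Fintype.card_prod, Fintype.card_pi, Fintype.card_bool,
    prod_const, Fintype.card_fin, nsmul_eq_mul, Nat.cast_pow, Nat.cast_ofNat, Nat.cast_mul] at h10
  linarith

lemma grid (q : ℕ) {L b : ℝ} (hL : 0 < L) (hb : 2 * L ≤ |b|) (a : ℝ) :
    ∑ t : Fin q, Real.exp (-(1 / 2) * (((t : ℕ) : ℝ) * b - a) ^ 2) ≤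
      1 + q * Real.exp (-(1 / 2) * L ^ 2) := by
  classical
  have h1 : ∀ t : Fin q, Real.exp (-(1 / 2) * (((t : ℕ) : ℝ) * b - a) ^ 2) ≤
      (if |((t : ℕ) : ℝ) * b - a| < L then (1 : ℝ) else 0) + Real.exp (-(1 / 2) * L ^ 2) := by
    intro t
    split_ifs with h
    · have : Real.exp (-(1 / 2) * (((t : ℕ) : ℝ) * b - a) ^ 2) ≤ 1 :=
        Real.exp_le_one_iff.2 (by nlinarith [sq_nonneg (((t : ℕ) : ℝ) * b - a)])
      linarith [Real.exp_pos (-(1 / 2) * L ^ 2)]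
    · rw [zero_add]
      refine Real.exp_le_exp.2 ?_
      have h9 : L ^ 2 ≤ |((t : ℕ) : ℝ) * b - a| ^ 2 := pow_le_pow_left₀ hL.le (not_lt.1 h) 2
      rw [sq_abs] at h9
      linarith
  refine (sum_le_sum fun t _ => h1 t).trans ?_
  rw [sum_add_distrib, sum_boole]
  simp only [sum_const, card_univ, Fintype.card_fin, nsmul_eq_mul]
  have h2 : (univ.filter fun t : Fin q => |((t : ℕ) : ℝ) * b - a| < L).card ≤ 1 := by
    rw [card_le_one]
    intro t ht t' ht'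
    have h3 := (mem_filter.1 ht).2
    have h4 := (mem_filter.1 ht').2
    by_contra hne
    have h5 : (1 : ℝ) ≤ |((t : ℕ) : ℝ) - ((t' : ℕ) : ℝ)| := by
      have h6 : ((t : ℕ) : ℤ) - ((t' : ℕ) : ℤ) ≠ 0 := by
        intro h7
        apply hne
        apply Fin.ext
        omega
      have h8 := Int.one_le_abs h6
      exact_mod_cast h8
    have h9 : |(((t : ℕ) : ℝ) - ((t' : ℕ) : ℝ)) * b| < 2 * L := by
      have e : (((t : ℕ) : ℝ) - ((t' : ℕ) : ℝ)) * b =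
          (((t : ℕ) : ℝ) * b - a) - (((t' : ℕ) : ℝ) * b - a) := by ring
      rw [e]
      exact (abs_sub _ _).trans_lt (by linarith)
    rw [abs_mul] at h9
    nlinarith [abs_nonneg b]
  have h3 : ((univ.filter fun t : Fin q => |((t : ℕ) : ℝ) * b - a| < L).card : ℝ) ≤ 1 := by
    exact_mod_cast h2
  linarith

lemma anti {Ω : Type*} [Fintype Ω] (Z : Ω → ℝ) {c L : ℝ} (hL : 0 < L) (q : ℕ) (hq : 0 < q)
    (hc1 : c ≤ 1)
    (hc : c * Fintype.card Ω ≤ ∑ w, (if 2 * L ≤ |Z w| then (1 : ℝ) else 0)) :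
    ∀ (r : ℕ) (a : ℝ), ∑ f : Fin r → Ω × Fin q,
      Real.exp (-(1 / 2) * (∑ j, (((f j).2 : ℕ) : ℝ) * Z (f j).1 - a) ^ 2) ≤
      ((Fintype.card Ω : ℝ) * q) ^ r * ((1 - c) ^ r + (1 / q + Real.exp (-(1 / 2) * L ^ 2))) := by
  have hq' : (0 : ℝ) < q := by exact_mod_cast hq
  have hβ : 0 < 1 / (q : ℝ) + Real.exp (-(1 / 2) * L ^ 2) := by positivity
  intro r
  induction r with
  | zero =>
    intro a
    have : Real.exp (-(1 / 2) * (0 - a) ^ 2) ≤ 1 :=
      Real.exp_le_one_iff.2 (by nlinarith [sq_nonneg (0 - a)])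
    simp only [Finset.univ_unique, sum_const, Finset.card_singleton, univ_eq_empty, sum_empty, pow_zero, one_mul,
      one_smul]
    linarith
  | succ r ih =>
    intro a
    rw [sum_succ, Fintype.sum_prod_type]
    simp only [Fin.sum_univ_succ, Fin.cons_zero, Fin.cons_succ]
    obtain ⟨β, hβe⟩ : ∃ β, β = 1 / (q : ℝ) + Real.exp (-(1 / 2) * L ^ 2) := ⟨_, rfl⟩
    rw [← hβe] at ih hβ ⊢
    obtain ⟨P, hP⟩ : ∃ P, P = ((Fintype.card Ω : ℝ) * q) ^ r := ⟨_, rfl⟩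
    have hP0 : 0 ≤ P := by rw [hP]; positivity
    have h1 : ∀ w : Ω, ∑ t : Fin q, ∑ f : Fin r → Ω × Fin q,
        Real.exp (-(1 / 2) * (((t : ℕ) : ℝ) * Z w +
          ∑ j, (((f j).2 : ℕ) : ℝ) * Z (f j).1 - a) ^ 2) ≤
        P * q * β + P * q * (1 - c) ^ r * (1 - if 2 * L ≤ |Z w| then (1 : ℝ) else 0) := by
      intro w
      split_ifs with h
      · rw [sum_comm]
        have h2 : ∀ f : Fin r → Ω × Fin q, ∑ t : Fin q,
            Real.exp (-(1 / 2) * (((t : ℕ) : ℝ) * Z w +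
              ∑ j, (((f j).2 : ℕ) : ℝ) * Z (f j).1 - a) ^ 2) ≤ q * β := by
          intro f
          have h3 := grid q hL h (a - ∑ j, (((f j).2 : ℕ) : ℝ) * Z (f j).1)
          have e : (q : ℝ) * β = 1 + q * Real.exp (-(1 / 2) * L ^ 2) := by
            rw [hβe]; field_simp
          rw [e]
          refine le_trans (le_of_eq (sum_congr rfl fun t _ => ?_)) h3
          refine congrArg _ ?_
          ring
        refine (sum_le_sum fun f _ => h2 f).trans (le_of_eq ?_)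
        simp only [sum_const, card_univ, Fintype.card_pi, Fintype.card_prod, prod_const,
          Fintype.card_fin, nsmul_eq_mul, Nat.cast_pow, Nat.cast_mul]
        rw [← hP]; ring
      · have h2 : ∀ t : Fin q, ∑ f : Fin r → Ω × Fin q,
            Real.exp (-(1 / 2) * (((t : ℕ) : ℝ) * Z w +
              ∑ j, (((f j).2 : ℕ) : ℝ) * Z (f j).1 - a) ^ 2) ≤ P * ((1 - c) ^ r + β) := by
          intro t
          have h3 := ih (a - ((t : ℕ) : ℝ) * Z w)
          rw [← hP] at h3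
          refine le_trans (le_of_eq (sum_congr rfl fun f _ => ?_)) h3
          refine congrArg _ ?_
          ring
        refine (sum_le_sum fun t _ => h2 t).trans (le_of_eq ?_)
        simp only [sum_const, card_univ, Fintype.card_fin, nsmul_eq_mul]
        ring
    refine (sum_le_sum fun w _ => h1 w).trans ?_
    rw [sum_add_distrib, ← mul_sum, ← mul_sum, sum_sub_distrib]
    simp only [sum_const, card_univ, nsmul_eq_mul, mul_one]
    rw [pow_succ ((Fintype.card Ω : ℝ) * q), ← hP, pow_succ (1 - c)]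
    have h4 : 0 ≤ P * q * (1 - c) ^ r := by
      have : 0 ≤ 1 - c := by linarith
      positivity
    have h5 := mul_le_mul_of_nonneg_left (show (Fintype.card Ω : ℝ) -
      ∑ w, (if 2 * L ≤ |Z w| then (1 : ℝ) else 0) ≤ Fintype.card Ω * (1 - c) by linarith) h4
    linarith

end Pool.Agent.H.MP_ad3614_gt
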