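import Pool.Agent.H.MP_ad3614_gt.Body

namespace Pool.Agent.H.MP_ad3614_gt
open MeasureTheory Set Module Finset
open scoped InnerProductSpace Pointwise

lemma exists_normal {W V : Type*} [NormedAddCommGroup W] [InnerProductSpace ℝ W]
    [FiniteDimensional ℝ W] [NormedAddCommGroup V] [InnerProductSpace ℝ V] [FiniteDimensional ℝ V]
    (ι : W →ₗᵢ[ℝ] V) (h : finrank ℝ W < finrank ℝ V) :
    ∃ ν : V, ‖ν‖ = 1 ∧ ∀ y, ⟪ι y, ν⟫_ℝ = 0 := by
  have h1 := Submodule.finrank_add_finrank_orthogonal (LinearMap.range ι.toLinearMap)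
  have h2 := LinearMap.finrank_range_le ι.toLinearMap
  have h3 : (LinearMap.range ι.toLinearMap)ᗮ ≠ ⊥ := by
    intro h4
    rw [h4, finrank_bot] at h1
    omega
  obtain ⟨v, hv, hv0⟩ := Submodule.exists_mem_ne_zero_of_ne_bot h3
  refine ⟨‖v‖⁻¹ • v, norm_smul_inv_norm hv0, fun y => ?_⟩
  have h5 : ι y ∈ LinearMap.range ι.toLinearMap := ⟨y, rfl⟩
  rw [real_inner_smul_right, Submodule.inner_right_of_mem_orthogonal h5 hv, mul_zero]

lemma hh_near {V : Type*} [NormedAddCommGroup V] [InnerProductSpace ℝ V] {I : Type} [Fintype I]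
    (p : I → V) {B : ℝ} (hB : 1 ≤ B) (hp : ∀ i, ‖p i‖ ≤ B) {x z : V} (hx : ‖x‖ ≤ B)
    (hz : ‖z - x‖ ≤ 1 / (4 * B)) : hh p x ≤ 3 * hh p z := by
  unfold hh
  rw [mul_left_comm, mul_sum _ _ (3 : ℝ)]
  refine mul_le_mul_of_nonneg_left (sum_le_sum fun i _ => ?_) (by positivity)
  have h1 : ‖z - p i‖ ≤ ‖x - p i‖ + 1 / (4 * B) := by
    have := norm_add_le (x - p i) (z - x)
    have e : x - p i + (z - x) = z - p i := by abel
    rw [e] at this
    linarith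
  have h2 : ‖x - p i‖ ≤ 2 * B := by
    have := norm_sub_le x (p i)
    linarith [hp i]
  have h3 : 1 / (4 * B) ≤ 1 := by
    rw [div_le_one (by linarith)]; linarith
  have h4 : 0 < 1 / (4 * B) := by positivity
  have h5 : 2 * B * (1 / (4 * B)) = 1 / 2 := by field_simp; ring
  have h6 : ‖z - p i‖ ^ 2 ≤ (‖x - p i‖ + 1 / (4 * B)) ^ 2 := pow_le_pow_left₀ (norm_nonneg _) h1 2
  have h7 : ‖x - p i‖ * (1 / (4 * B)) ≤ 1 / 2 := by
    rw [← h5]; exact mul_le_mul_of_nonneg_right h2 h4.le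
  have h8 : ‖z - p i‖ ^ 2 ≤ ‖x - p i‖ ^ 2 + 2 := by nlinarith
  have h9 : Real.exp (-(1 / 2) * ‖x - p i‖ ^ 2) ≤
      Real.exp 1 * Real.exp (-(1 / 2) * ‖z - p i‖ ^ 2) := by
    rw [← Real.exp_add]
    exact Real.exp_le_exp.2 (by linarith)
  have h10 := Real.exp_one_lt_d9
  have h11 := Real.exp_pos (-(1 / 2) * ‖z - p i‖ ^ 2)
  nlinarith

lemma line_bound {V : Type*} [NormedAddCommGroup V] [InnerProductSpace ℝ V] {I : Type} [Fintype I]
    [Nonempty I] (p : I → V) {B c η : ℝ} (hB : 1 ≤ B) (hp : ∀ i, ‖p i‖ ≤ B) (hc : 1 / 2 ≤ c)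
    (hη : η = 1 / (16 * B ^ 3)) (A : ℝ) (u y : V) (hu : ‖u‖ ≤ 1) (T : Set ℝ)
    (hT : ∀ t ∈ T, ‖t • u + y‖ ≤ B ∧ A < c * t + η * (‖t • u + y‖ ^ 2 + hh p (t • u + y)) ∧
      c * t + η * ‖t • u + y‖ ^ 2 ≤ A) :
    volume T ≤ ENNReal.ofReal (12 * η * hh p ((A / c) • u + y)) := by
  have hη0 : 0 < η := by rw [hη]; positivity
  have hc0 : 0 < c := by linarith
  have hB2 : 1 ≤ B ^ 2 := one_le_pow₀ hB
  have hηB : η * (2 * B ^ 2) = 1 / (8 * B) := by rw [hη]; field_simp; ring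
  have hηB' : η * (2 * B) ≤ 1 / 4 := by
    have e : η * (2 * B) = 1 / (8 * B ^ 2) := by rw [hη]; field_simp; ring
    rw [e, div_le_div_iff₀ (by positivity) (by norm_num)]
    linarith
  have hnear : ∀ t ∈ T, hh p (t • u + y) ≤ 3 * hh p ((A / c) • u + y) := by
    intro t ht
    obtain ⟨h1, h2, h3⟩ := hT t ht
    refine hh_near p hB hp h1 ?_
    have e : (A / c) • u + y - (t • u + y) = (A / c - t) • u := by rw [sub_smul]; abel
    rw [e, norm_smul, Real.norm_eq_abs]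
    have h4 : ‖t • u + y‖ ^ 2 ≤ B ^ 2 := pow_le_pow_left₀ (norm_nonneg _) h1 2
    have h5 := hh_le_one p (t • u + y)
    have h6 : η * (‖t • u + y‖ ^ 2 + hh p (t • u + y)) ≤ η * (2 * B ^ 2) :=
      mul_le_mul_of_nonneg_left (by linarith) hη0.le
    have h7 : 0 ≤ η * ‖t • u + y‖ ^ 2 := by positivity
    have h8 : A / c - t = (A - c * t) / c := by field_simp
    have h9 : |A / c - t| ≤ 1 / (4 * B) := by
      rw [h8, abs_of_nonneg (div_nonneg (by linarith) hc0.le), div_le_iff₀ hc0]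
      have e2 : 1 / (8 * B) = 1 / (4 * B) * (1 / 2) := by field_simp; ring
      have h10 : 1 / (4 * B) * (1 / 2) ≤ 1 / (4 * B) * c :=
        mul_le_mul_of_nonneg_left hc (by positivity)
      linarith
    exact (mul_le_of_le_one_right (abs_nonneg _) hu).trans h9
  have key : ∀ s ∈ T, ∀ t ∈ T, s ≤ t → t - s ≤ 12 * η * hh p ((A / c) • u + y) := by
    intro s hs t ht hst
    obtain ⟨h1, h2, -⟩ := hT s hs
    obtain ⟨h4, -, h6⟩ := hT t ht
    have h7 := hnear s hs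
    have h8 : ‖s • u + y‖ ≤ ‖t • u + y‖ + (t - s) := by
      have e : s • u + y = (t • u + y) - (t - s) • u := by rw [sub_smul]; abel
      have h9 : ‖(t - s) • u‖ ≤ t - s := by
        rw [norm_smul, Real.norm_eq_abs, abs_of_nonneg (by linarith)]
        exact mul_le_of_le_one_right (by linarith) hu
      rw [e]
      linarith [norm_sub_le (t • u + y) ((t - s) • u)]
    have h10 : ‖s • u + y‖ ^ 2 - ‖t • u + y‖ ^ 2 ≤ 2 * B * (t - s) := by
      have h11 := norm_nonneg (s • u + y)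
      have h12 := norm_nonneg (t • u + y)
      have e : ‖s • u + y‖ ^ 2 - ‖t • u + y‖ ^ 2 =
        (‖s • u + y‖ + ‖t • u + y‖) * (‖s • u + y‖ - ‖t • u + y‖) := by ring
      rw [e]
      calc _ ≤ (‖s • u + y‖ + ‖t • u + y‖) * (t - s) :=
            mul_le_mul_of_nonneg_left (by linarith) (by linarith)
        _ ≤ 2 * B * (t - s) := mul_le_mul_of_nonneg_right (by linarith) (by linarith)
    have h13 := mul_le_mul_of_nonneg_left h10 hη0.le
    have h14 := mul_le_mul_of_nonneg_left h7 hη0.le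
    have h15 := mul_le_mul_of_nonneg_right hηB' (show 0 ≤ t - s by linarith)
    have h16 := mul_le_mul_of_nonneg_right hc (show 0 ≤ t - s by linarith)
    linarith
  refine (Real.volume_le_diam T).trans (Metric.ediam_le_of_forall_dist_le fun s hs t ht => ?_)
  rw [Real.dist_eq]
  rcases le_total s t with h | h
  · rw [abs_sub_comm, abs_of_nonneg (by linarith)]; exact key s hs t ht h
  · rw [abs_of_nonneg (by linarith)]; exact key t ht s hs h

lemma section_bound {E : Type*} [NormedAddCommGroup E] [InnerProductSpace ℝ E]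
    [FiniteDimensional ℝ E] [MeasurableSpace E] [BorelSpace E] {e : E} (he : ‖e‖ = 1) {m : ℕ}
    (hV : finrank ℝ (ℝ ∙ e)ᗮ = m + 1) (F : Submodule ℝ E) (hF : finrank ℝ F = m + 1)
    {I : Type} [Fintype I] [Nonempty I] (p : I → (ℝ ∙ e)ᗮ) {K0 : Set (ℝ ∙ e)ᗮ} (hK : IsClosed K0)
    {B η κ : ℝ} (hB : 1 ≤ B) (hp : ∀ i, ‖p i‖ ≤ B) (hKB : ∀ y ∈ K0, ‖y‖ ≤ B)
    (hη : η = 1 / (16 * B ^ 3))
    (hκ : ∀ ν : (ℝ ∙ e)ᗮ, ‖ν‖ = 1 → ∀ a : ℝ,
      ∑ i, Real.exp (-(1 / 2) * (⟪p i, ν⟫_ℝ - a) ^ 2) ≤ κ * Fintype.card I) :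
    volume {x : F | (x : E) ∈ layer e K0 (B + 2) η (hh p)} ≤
      ENNReal.ofReal (12 * η * (s2 ^ m * κ)) := by
  have hη0 : 0 < η := by rw [hη]; positivity
  have hcard : (0 : ℝ) < Fintype.card I := by exact_mod_cast Fintype.card_pos
  have hs := one_le_s2
  rcases eq_empty_or_nonempty {x : F | (x : E) ∈ layer e K0 (B + 2) η (hh p)} with h0 | ⟨x0, hx0⟩
  · rw [h0, measure_empty]; exact bot_le
  obtain ⟨f, hf⟩ : ∃ f : F, ∀ x : F, ⟪e, (x : E)⟫_ℝ = ⟪f, x⟫_ℝ :=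
    ⟨F.orthogonalProjectionOnto e, fun x =>
      (Submodule.inner_orthogonalProjectionOnto_eq_of_mem_right x e).symm⟩
  have hc : 1 / 2 ≤ ‖f‖ := by
    obtain ⟨h1, h2, -⟩ := hx0
    have h3 := hKB _ h1
    have h4 : ‖pr e (x0 : E)‖ ^ 2 ≤ B ^ 2 := pow_le_pow_left₀ (norm_nonneg _) h3 2
    have h5 := hh_le_one p (pr e (x0 : E))
    have hB2 : 1 ≤ B ^ 2 := one_le_pow₀ hB
    have h6 : η * (‖pr e (x0 : E)‖ ^ 2 + hh p (pr e (x0 : E))) ≤ η * (2 * B ^ 2) :=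
      mul_le_mul_of_nonneg_left (by linarith) hη0.le
    have hηB : η * (2 * B ^ 2) = 1 / (8 * B) := by rw [hη]; field_simp; ring
    have h7 : 1 / (8 * B) ≤ 1 := by rw [div_le_one (by linarith)]; linarith
    have h8 : B + 1 ≤ ⟪e, (x0 : E)⟫_ℝ := by linarith
    have h9 := norm_le_pr he (x0 : E)
    rw [abs_of_nonneg (by linarith)] at h9
    have h10 : ⟪e, (x0 : E)⟫_ℝ ≤ ‖f‖ * ‖(x0 : E)‖ := by
      rw [hf]; exact real_inner_le_norm _ _
    by_contra hcon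
    have h11 : ‖f‖ * ‖(x0 : E)‖ ≤ 1 / 2 * ‖(x0 : E)‖ :=
      mul_le_mul_of_nonneg_right (not_le.1 hcon).le (norm_nonneg _)
    linarith
  have hf0 : f ≠ 0 := by
    intro h; rw [h, norm_zero] at hc; linarith
  obtain ⟨w, hw⟩ : ∃ w : F, w = ‖f‖⁻¹ • f := ⟨_, rfl⟩
  have hw1 : ‖w‖ = 1 := by rw [hw]; exact norm_smul_inv_norm hf0
  have hfw : ∀ x : F, ⟪e, (x : E)⟫_ℝ = ‖f‖ * ⟪w, x⟫_ℝ := by
    intro x
    rw [hf, hw, real_inner_smul_left, ← mul_assoc, mul_inv_cancel₀ (by linarith), one_mul]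
  have hW : finrank ℝ (ℝ ∙ w)ᗮ = m := by
    have : Fact (finrank ℝ F = m + 1) := ⟨hF⟩
    exact Submodule.finrank_orthogonal_span_singleton (by intro h; rw [h, norm_zero] at hw1; linarith)
  let ι : (ℝ ∙ w)ᗮ →ₗᵢ[ℝ] (ℝ ∙ e)ᗮ :=
    { toLinearMap := (pr e).toLinearMap ∘ₗ F.subtype ∘ₗ (ℝ ∙ w)ᗮ.subtype
      norm_map' := fun y => by
        have h1 : ((pr e ((y : F) : E) : (ℝ ∙ e)ᗮ) : E) = ((y : F) : E) := by
          rw [pr_coe he, hfw, inner_coe, mul_zero, zero_smul, sub_zero]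
        show ‖((pr e ((y : F) : E) : (ℝ ∙ e)ᗮ) : E)‖ = ‖((y : F) : E)‖
        rw [h1] }
  have hι : ∀ y, ι y = pr e ((y : F) : E) := fun y => rfl
  obtain ⟨ν, hν1, hν⟩ := exists_normal ι (by omega)
  have hmeas : MeasurableSet {x : F | (x : E) ∈ layer e K0 (B + 2) η (hh p)} :=
    measurable_subtype_coe (layer_meas e hK _ _ (hh_cont p))
  rw [slice w hw1 hmeas]
  obtain ⟨u, hu⟩ : ∃ u, u = pr e (w : E) := ⟨_, rfl⟩
  have hu1 : ‖u‖ ≤ 1 := by
    rw [hu, ← hw1]; exact norm_pr_le e (w : E)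
  have h1 : ∀ y : (ℝ ∙ w)ᗮ,
      volume {t : ℝ | t • w + (y : F) ∈ {x : F | (x : E) ∈ layer e K0 (B + 2) η (hh p)}} ≤
      ENNReal.ofReal (12 * η * (1 / Fintype.card I)) * ∑ i,
        ENNReal.ofReal (Real.exp (-(1 / 2) * ‖ι y + (((B + 2) / ‖f‖) • u - p i)‖ ^ 2)) := by
    intro y
    refine (line_bound p hB hp hc hη (B + 2) u (ι y) hu1 _ ?_).trans (le_of_eq ?_)
    · rintro t ⟨h2, h3, h4⟩
      have e1 : pr e ((t • w + (y : F) : F) : E) = t • u + ι y := by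
        rw [hι, hu, Submodule.coe_add, Submodule.coe_smul, map_add, map_smul]
      rw [e1] at h2 h3 h4
      rw [hfw, inner_line hw1] at h3 h4
      exact ⟨hKB _ h2, h3, h4⟩
    · rw [← ENNReal.ofReal_sum_of_nonneg fun i _ => (Real.exp_pos _).le,
        ← ENNReal.ofReal_mul (by positivity), hh, mul_assoc (12 * η)]
      refine congrArg (fun s => ENNReal.ofReal (12 * η * (1 / Fintype.card I * s))) ?_
      refine sum_congr rfl fun i _ => ?_
      have e2 : ((B + 2) / ‖f‖) • u + ι y - p i = ι y + (((B + 2) / ‖f‖) • u - p i) := by abel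
      rw [e2]
  refine (lintegral_mono h1).trans ?_
  have hιc : Continuous ι := ι.continuous
  rw [lintegral_const_mul' _ _ ENNReal.ofReal_ne_top,
    lintegral_finset_sum _ (fun i _ => by fun_prop)]
  have h2 := sum_le_sum fun i (_ : i ∈ (univ : Finset I)) =>
    hyper ι ν hν1 hν (((B + 2) / ‖f‖) • u - p i)
  refine (mul_le_mul_right h2 _).trans ?_
  rw [← ENNReal.ofReal_sum_of_nonneg fun i _ => by positivity,
    ← ENNReal.ofReal_mul (by positivity), ← mul_sum, hW]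
  refine ENNReal.ofReal_le_ofReal ?_
  have h3 := hκ ν hν1 ⟪((B + 2) / ‖f‖) • u, ν⟫_ℝ
  have h4 : ∑ i, Real.exp (-(1 / 2) * ⟪((B + 2) / ‖f‖) • u - p i, ν⟫_ℝ ^ 2) =
      ∑ i, Real.exp (-(1 / 2) * (⟪p i, ν⟫_ℝ - ⟪((B + 2) / ‖f‖) • u, ν⟫_ℝ) ^ 2) := by
    refine sum_congr rfl fun i _ => ?_
    rw [inner_sub_left]
    refine congrArg _ ?_
    ring
  rw [h4]
  have h5 : 12 * η * (s2 ^ m * κ) =
      12 * η * (1 / Fintype.card I) * (s2 ^ m * (κ * Fintype.card I)) := by field_simp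
  rw [h5]
  exact mul_le_mul_of_nonneg_left (mul_le_mul_of_nonneg_left h3 (by positivity)) (by positivity)

end Pool.Agent.H.MP_ad3614_gt
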